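import Pool.Agent.MP_b5e119_nt.G42X.YDefs

/-! Statements of the end part of campaign h73a: every modulus, errors relative to `φ(M)`. -/

namespace Pool.Agent.G42

open Finset Filter Topology Pool.Agent.G60
open Pool.Agent.G27 (nu re EX UN)
open Pool.Agent.G94 (Rough)

noncomputable section

open Classical in
/-- Units at which `λ` does not have the parity `s`. -/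
def odU [Sg] (M : ℕ) [NeZero M] : ℕ := #{a : ZMod M | IsUnit a ∧ ff M (-a) ≠ Sg.s * ff M a}

def er (G : ℕ → ℤ) (M w i : ℕ) : ℝ := (#{d ∈ SN M w i | G d ≠ mj (SN M w i) G} : ℝ) / 2 ^ i

open Classical in
/-- The interface of the climb over all classes. -/
def FEWA_s [Sg] : Prop := ∀ γ e : ℝ, 0 < γ → 0 < e → ∃ (y : ℕ) (β : ℝ), 0 < β ∧ ∃ N₀ : ℕ,
  ∀ (N : ℕ) [NeZero N], N₀ ≤ N → Gx N y β → ∃ (M : ℕ) (_ : NeZero M), M ∣ N ∧ N ^ 200 ≤ M ^ 201 ∧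
    (odU M : ℝ) ≤ e * M.totient ∧
      ∃ Λ : Finset (Ch M), (#Λ : ℝ) ≤ (M : ℝ) ^ γ ∧ ∑ χ ∈ Λᶜ, nu M χ ≤ e

def UNR_s : Prop := ∃ N₀ : ℕ, ∀ M Y : ℕ, N₀ ≤ M → M ≤ Y ^ 400 →
  (Y : ℝ) * M.totient / (2 * M) ≤ UN M Y

open Classical in
def TYPA_s : Prop := ∀ k : ℕ, 16 ≤ k → ∃ N₀ : ℕ, ∀ (N : ℕ) [NeZero N], N₀ ≤ N →
  ∀ U : Finset (Ch N), (#U : ℝ) ≤ (N : ℝ) ^ (1 / (2 * (k : ℝ))) →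
    ∃ d : ℕ → ℕ, (∀ i ∈ II N k, d i ∈ WN N (Nat.log 2 N / k) i) ∧
      ∑ χ ∈ U, nu N χ * ∑ i ∈ II N k, EN N (Nat.log 2 N / k) (hh χ) (fun i => hh χ (d i)) i ≤
        768 * 4 ^ k * ∑ χ ∈ Uᶜ, nu N χ

open Classical in
def ENDA_s : Prop := ∃ K γ : ℝ, 0 < K ∧ 0 < γ ∧ ∃ N₀ : ℕ, ∀ (N : ℕ) [NeZero N], N₀ ≤ N →
  ∀ U : Finset (Ch N), (#U : ℝ) ≤ (N : ℝ) ^ γ → K * ∑ χ ∈ Uᶜ, nu N χ < 1 →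
    ∃ χ : Ch N, χ ^ 2 = 1 ∧ 1 - nu N χ ≤ K * ∑ χ ∈ Uᶜ, nu N χ

def NPR_s : Prop := ∃ N₀ : ℕ, ∀ (N : ℕ) [NeZero N], N₀ ≤ N → nu N 1 ≤ 1 / 4

def STRA_s [Sg] : Prop := ∀ (N : ℕ) [NeZero N] (χ : Ch N) (η : ℝ), 1 < N → χ ^ 2 = 1 →
  η ≤ 1 / 8 → 1 - nu N χ ≤ η → (odU N : ℝ) ≤ η * N.totient →
    ∃ σ : ℤ, (σ = 1 ∨ σ = -1) ∧ (EX χ σ : ℝ) ≤ η * N.totient ∧ re χ (N - 1) = Sg.s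

def INVA_s [Sg] : Prop := ∀ η : ℝ, 0 < η → ∃ c : ℝ, 0 < c ∧ ∃ N₀ : ℕ, ∀ N : ℕ, N₀ ≤ N →
  ∀ e : ℤ, (e = 1 ∨ e = -1) → (cnt N e (-Sg.s * e) : ℝ) ≤ c * N →
    ∃ (M : ℕ) (_ : NeZero M), M ∣ N ∧ N ^ 200 ≤ M ^ 201 ∧ ∃ (χ : Ch M) (σ : ℤ), χ ^ 2 = 1 ∧
      χ ≠ 1 ∧ (σ = 1 ∨ σ = -1) ∧ (EX χ σ : ℝ) ≤ η * M.totient ∧ re χ (M - 1) = Sg.s

def RGA_s : Prop := ∃ N₀ : ℕ, ∀ (G : ℕ → ℤ) (M w K : ℕ) (σ : ℤ) (η : ℝ), N₀ ≤ M → CU G M →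
  1 ≤ w → M < (2 ^ w) ^ K → (σ = 1 ∨ σ = -1) →
  (#{u ∈ UY M 0 | G u ≠ σ} : ℝ) ≤ η * M.totient →
    ∑ i ∈ range (99 * Nat.log 2 M / 100), er G M w i ≤ 16 * 2 ^ K * η

open Classical in
def SVB_s : Prop := ∃ s : ℕ, ∀ (N : ℕ) (ψ : Ch N) (Θ : ℂ) (w m : ℕ) (B : ℝ), ‖Θ‖ = 1 → 1 ≤ w →
  (∀ Y : ℕ, Y ≤ 2 ^ (m + 1) → ‖∑ n ∈ Icc 1 Y, ψ (n : ZMod N)‖ ≤ B) →
  (1 + 2 * B) * 2 ^ (s * w) ≤ 2 ^ m →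
    2 ^ m * VZ w / 2 ≤ ∑ d ∈ Ioc (2 ^ m) (2 ^ (m + 1)) with Rough (2 ^ w) d,
      (1 - (ψ (d : ZMod N) * (starRingEnd ℂ) Θ).re)

def REPA_s : Prop := ∃ η : ℝ, 0 < η ∧ ∃ N₀ : ℕ, ∀ (M M' : ℕ) [NeZero M] [NeZero M'], N₀ ≤ M →
  M ≤ M' → M' ^ 100 ≤ M ^ 201 → ∀ (χ : Ch M) (χ' : Ch M') (s s' : ℤ), χ ^ 2 = 1 → χ' ^ 2 = 1 →
    (s = 1 ∨ s = -1) → (s' = 1 ∨ s' = -1) → (EX χ s : ℝ) ≤ η * M.totient →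
    (EX χ' s' : ℝ) ≤ η * M'.totient →
      ∀ n : ℕ, n.Coprime (M * M') → χ (n : ZMod M) = χ' (n : ZMod M')

def LRGA_s : Prop := ∃ η : ℝ, 0 < η ∧ ∀ A : ℕ, ∃ N₀ : ℕ, ∀ (M : ℕ) [NeZero M], N₀ ≤ M →
  ∀ (χ : Ch M) (σ : ℤ), χ ^ 2 = 1 → χ ≠ 1 → (σ = 1 ∨ σ = -1) → (EX χ σ : ℝ) ≤ η * M.totient →
    Real.log M ^ A < χ.conductor

def TOPA_s : Prop := ∃ c : ℝ, 0 < c ∧ ∀ A : ℕ, ∃ X₀ : ℕ, ∀ X : ℕ, X₀ ≤ X →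
  ∃ (q : ℕ) (ψ : DirichletCharacter ℂ q), ψ.IsPrimitive ∧ ψ ^ 2 = 1 ∧
    ∀ M N : ℕ, X ≤ M → M ≤ X ^ 2 → 0 < N → M ∣ N →
      ∀ e e' : ℤ, (e = 1 ∨ e = -1) → (e' = 1 ∨ e' = -1) → (cnt N e e' : ℝ) < c * M →
        Real.log X ^ A ≤ q ∧ q ∣ M ∧ ψ (-1) = -(e * e' : ℤ)

end

end Pool.Agent.G42
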