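import Pool.Agent.MP_b5e119_nt.G42A.EDefs

namespace Pool.Agent.G42

open Finset Filter Topology Pool.Agent.G60
open Pool.Agent.G27 (cu nu re EX WW UN)

theorem enda_norm_le {N : ℕ} (χ : Ch N) (d : ℕ) : ‖hh χ d‖ ≤ 1 := by
  rw [hh, norm_mul]
  have h1 : ‖(lam d : ℂ)‖ = 1 := by
    rcases lam_cases d with h | h <;> simp [h]
  rw [h1, one_mul]
  exact DirichletCharacter.norm_le_one χ _

theorem enda_norm_one {N : ℕ} (χ : Ch N) {d : ℕ} (hd : d.Coprime N) : ‖hh χ d‖ = 1 := by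
  rw [hh, norm_mul]
  have h1 : ‖(lam d : ℂ)‖ = 1 := by
    rcases lam_cases d with h | h <;> simp [h]
  obtain ⟨u, hu⟩ := (ZMod.isUnit_iff_coprime d N).2 hd
  rw [h1, one_mul, ← hu]
  exact DirichletCharacter.unit_norm_eq_one _ u

theorem enda_mul {N : ℕ} (χ χ' : Ch N) (d : ℕ) :
    (χ * χ') (d : ZMod N) = hh χ d * hh χ' d := by
  rw [MulChar.mul_apply, hh, hh]
  rcases lam_cases d with h | h <;> simp [h]

theorem enda_ineq {a b a₀ b₀ : ℂ} (hb : ‖b‖ ≤ 1) (ha : ‖a₀‖ ≤ 1) :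
    ‖a * b - a₀ * b₀‖ ^ 2 ≤ 2 * ‖a - a₀‖ ^ 2 + 2 * ‖b - b₀‖ ^ 2 := by
  have e : a * b - a₀ * b₀ = (a - a₀) * b + a₀ * (b - b₀) := by ring
  have h1 : ‖(a - a₀) * b‖ ≤ ‖a - a₀‖ := by
    rw [norm_mul]; exact mul_le_of_le_one_right (norm_nonneg _) hb
  have h2 : ‖a₀ * (b - b₀)‖ ≤ ‖b - b₀‖ := by
    rw [norm_mul]; exact mul_le_of_le_one_left (norm_nonneg _) ha
  have h3 : ‖a * b - a₀ * b₀‖ ≤ ‖a - a₀‖ + ‖b - b₀‖ := by
    rw [e]; exact (norm_add_le _ _).trans (add_le_add h1 h2)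
  have h4 := pow_le_pow_left₀ (norm_nonneg _) h3 2
  nlinarith [sq_nonneg (‖a - a₀‖ - ‖b - b₀‖)]

theorem enda_en {N : ℕ} (χ χ' : Ch N) (w : ℕ) (d : ℕ → ℕ) (i : ℕ) :
    EN N w (fun n => (χ * χ') (n : ZMod N)) (fun i => hh χ (d i) * hh χ' (d i)) i ≤
      2 * EN N w (hh χ) (fun i => hh χ (d i)) i + 2 * EN N w (hh χ') (fun i => hh χ' (d i)) i := by
  unfold EN
  rw [← mul_div_assoc, ← mul_div_assoc, ← add_div, mul_sum, mul_sum, ← sum_add_distrib]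
  refine div_le_div_of_nonneg_right (sum_le_sum fun n _ => ?_) (by positivity)
  simp only [enda_mul]
  exact enda_ineq (enda_norm_le _ _) (enda_norm_le _ _)

theorem enda_row (hK : KEYX_s) (hT : TYPA_s) (hM : Pool.Agent.G27.MUG_s) : ENDA_s := by
  classical
  obtain ⟨k, ρ, hk, hρ, N₁, hK⟩ := hK
  obtain ⟨N₂, hT⟩ := hT k hk
  have hk0 : (0 : ℝ) < k := by exact_mod_cast (by omega : 0 < k)
  refine ⟨1 + 4 / ρ * (768 * 4 ^ k), 1 / (2 * (k : ℝ)), by positivity, by positivity,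
    max (max N₁ N₂) 2, ?_⟩
  intro N _ hN U hU hlt
  have h1 : N₁ ≤ N := le_trans (le_trans (le_max_left _ _) (le_max_left _ _)) hN
  have h2 : N₂ ≤ N := le_trans (le_trans (le_max_right _ _) (le_max_left _ _)) hN
  have h3 : 2 ≤ N := le_trans (le_max_right _ _) hN
  obtain ⟨d, hd, hT⟩ := hT N h2 U hU
  have hmass := (hM N (by omega)).1
  set e : ℝ := ∑ χ ∈ Uᶜ, nu N χ with he
  set C : ℝ := 768 * 4 ^ k with hC
  set E : Ch N → ℝ := fun χ => ∑ i ∈ II N k,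
    EN N (Nat.log 2 N / k) (hh χ) (fun i => hh χ (d i)) i with hE
  have hnu : ∀ χ : Ch N, 0 ≤ nu N χ := fun χ => sq_nonneg _
  have hE0 : ∀ χ, 0 ≤ E χ := fun χ => sum_nonneg fun i _ =>
    div_nonneg (sum_nonneg fun _ _ => sq_nonneg _) (by positivity)
  have pair : ∀ χ χ' : Ch N, E χ ≤ ρ / 4 → E χ' ≤ ρ / 4 → χ * χ' = 1 := by
    intro χ χ' hχ hχ'
    refine hK N h1 (χ * χ') (fun i => hh χ (d i) * hh χ' (d i)) (fun i hi => ?_) ?_
    · have hc : (d i).Coprime N := (mem_filter.1 (hd i hi)).2.2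
      rw [norm_mul, enda_norm_one χ hc, enda_norm_one χ' hc, one_mul]
    · refine le_trans (sum_le_sum fun i _ => enda_en χ χ' _ d i) ?_
      rw [sum_add_distrib, ← mul_sum, ← mul_sum]
      change 2 * E χ + 2 * E χ' ≤ ρ
      linarith
  have hT' : ∑ χ ∈ U, nu N χ * E χ ≤ C * e := hT
  have hbad : ∑ χ ∈ U with ¬ E χ ≤ ρ / 4, nu N χ ≤ 4 / ρ * (C * e) := by
    calc ∑ χ ∈ U with ¬ E χ ≤ ρ / 4, nu N χ
        ≤ ∑ χ ∈ U with ¬ E χ ≤ ρ / 4, 4 / ρ * (nu N χ * E χ) := by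
          refine sum_le_sum fun χ hχ => ?_
          have a1 : ρ / 4 ≤ E χ := (not_le.1 (mem_filter.1 hχ).2).le
          have a2 : 1 ≤ 4 / ρ * E χ := by
            rw [div_mul_eq_mul_div, le_div_iff₀ hρ]; linarith
          calc nu N χ = nu N χ * 1 := (mul_one _).symm
            _ ≤ nu N χ * (4 / ρ * E χ) := mul_le_mul_of_nonneg_left a2 (hnu χ)
            _ = _ := by ring
      _ ≤ ∑ χ ∈ U, 4 / ρ * (nu N χ * E χ) := by
          refine sum_le_sum_of_subset_of_nonneg (filter_subset _ _) fun χ _ _ => ?_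
          have := mul_nonneg (hnu χ) (hE0 χ)
          positivity
      _ = 4 / ρ * ∑ χ ∈ U, nu N χ * E χ := (mul_sum _ _ _).symm
      _ ≤ _ := mul_le_mul_of_nonneg_left hT' (by positivity)
  have hsplit : (∑ χ ∈ U with E χ ≤ ρ / 4, nu N χ) + (∑ χ ∈ U with ¬ E χ ≤ ρ / 4, nu N χ) + e = 1 := by
    rw [sum_filter_add_sum_filter_not, he, sum_add_sum_compl, hmass]
  have hgood : 1 - (1 + 4 / ρ * C) * e ≤ ∑ χ ∈ U with E χ ≤ ρ / 4, nu N χ := by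
    have : (1 + 4 / ρ * C) * e = e + 4 / ρ * (C * e) := by ring
    linarith
  have hne : ({χ ∈ U | E χ ≤ ρ / 4} : Finset (Ch N)).Nonempty := by
    by_contra hcon
    rw [not_nonempty_iff_eq_empty.1 hcon, sum_empty] at hgood
    linarith
  obtain ⟨χ₀, hχ₀⟩ := hne
  have g0 := (mem_filter.1 hχ₀).2
  refine ⟨χ₀, by rw [sq]; exact pair _ _ g0 g0, ?_⟩
  have hsub : ({χ ∈ U | E χ ≤ ρ / 4} : Finset (Ch N)) ⊆ {χ₀} := fun χ hχ => by
    rw [mem_singleton]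
    exact mul_right_cancel ((pair _ _ (mem_filter.1 hχ).2 g0).trans (pair _ _ g0 g0).symm)
  have hle := sum_le_sum_of_subset_of_nonneg (f := nu N) hsub fun χ _ _ => hnu χ
  rw [sum_singleton] at hle
  linarith

end Pool.Agent.G42
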