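import Pool.Agent.MP_b5e119_nt.G42A.EDefs

namespace Pool.Agent.G42

open Finset Filter Topology Pool.Agent.G60

theorem inva_row [Sg] (hO : ODX_s) (hF : FEWA_s) (hE : ENDA_s) (hP : NPR_s) (hS : STRA_s) :
    INVA_s := by
  classical
  intro η hη
  obtain ⟨K, γ, hK, hγ, N₁, hE⟩ := hE
  obtain ⟨N₂, hP⟩ := hP
  obtain ⟨t, ht⟩ : ∃ t : ℝ, t = min η (1 / 8) := ⟨_, rfl⟩
  have t0 : 0 < t := by rw [ht]; positivity
  have t1 : t ≤ η := ht ▸ min_le_left _ _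
  have t2 : t ≤ 1 / 8 := ht ▸ min_le_right _ _
  obtain ⟨y, β, hβ, N₃, hF⟩ := hF γ (t / (K + 1)) hγ (by positivity)
  obtain ⟨c, hc, N₄, hO⟩ := hO y β hβ
  obtain ⟨B, hB⟩ : ∃ B, B = N₁ + N₂ + 2 := ⟨_, rfl⟩
  refine ⟨c, hc, N₃ + N₄ + B ^ 2 + 1, fun N hN e he h => ?_⟩
  have : NeZero N := ⟨by omega⟩
  obtain ⟨M, i, m1, m2, m3, U, u1, u2⟩ := hF N (by omega) (hO N (by omega) e he h)
  have hM : B ≤ M := by
    by_contra hlt
    have a1 : M ^ 201 ≤ B ^ 201 := Nat.pow_le_pow_left (by omega) _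
    have a2 : (B ^ 2) ^ 200 ≤ N ^ 200 := Nat.pow_le_pow_left (by omega) _
    have a3 : B ^ 201 < B ^ (2 * 200) := Nat.pow_lt_pow_right (by omega) (by norm_num)
    rw [pow_mul] at a3
    exact absurd (a2.trans (m2.trans a1)) (not_le.2 a3)
  have e1 : t / (K + 1) ≤ t := div_le_self t0.le (by linarith)
  have e2 : K * (t / (K + 1)) ≤ t := by
    rw [← mul_div_assoc, div_le_iff₀ (by linarith)]
    nlinarith
  have u3 : K * ∑ χ ∈ Uᶜ, G27.nu M χ ≤ t := (mul_le_mul_of_nonneg_left u2 hK.le).trans e2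
  obtain ⟨χ, a1, a2⟩ := hE M (by omega) U u1 (by linarith)
  have hφ : (0 : ℝ) ≤ M.totient := Nat.cast_nonneg _
  obtain ⟨σ, b1, b2, b3⟩ := hS M χ t (by omega) a1 t2 (a2.trans u3)
    (m3.trans (mul_le_mul_of_nonneg_right e1 hφ))
  refine ⟨M, i, m1, m2, χ, σ, a1, ?_, b1, b2.trans (mul_le_mul_of_nonneg_right t1 hφ), b3⟩
  rintro rfl
  have := hP M (by omega)
  linarith

end Pool.Agent.G42
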