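import Pool.Agent.MP_b5e119_nt.G42A.EDefs
import Pool.Agent.MP_b5e119_nt.G74.LRGR

namespace Pool.Agent.G42

theorem lrga_row (hD : Pool.Agent.G94.DYP_s) (hR : Pool.Agent.G94.RG_s)
    (hT : Pool.Agent.G27.TAU_s) (hU : Pool.Agent.G27.UNI_s) (hP : Pool.Agent.G27.PHI_s) :
    LRGA_s :=
  Pool.Agent.G74.lrgr_row hD hR hT hU hP

end Pool.Agent.G42
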