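import Pool.Agent.MP_b5e119_nt.G42A.EDefs

/-! Row NPR: the principal character carries little mass. -/

namespace Pool.Agent.G42

open Finset Filter Topology Pool.Agent.G60 Pool.Agent.G27

theorem npr_id {M : ℕ} (hM : 0 < M) :
    ∑ n ∈ Icc 1 M with n.Coprime M, (lam n : ℝ) = ∑ e ∈ M.divisors,
      (ArithmeticFunction.moebius e : ℝ) * lam e * ∑ m ∈ Icc 1 (M / e), (lam m : ℝ) := by
  have h1 : ∀ n ∈ Icc 1 M, (if n.Coprime M then (lam n : ℝ) else 0) =
      ∑ e ∈ M.divisors, if e ∣ n then (ArithmeticFunction.moebius e : ℝ) * lam n else 0 := by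
    intro n hn
    have a := congrArg (fun f : ArithmeticFunction ℤ => f (n.gcd M))
      ArithmeticFunction.moebius_mul_coe_zeta
    simp only [ArithmeticFunction.coe_mul_zeta_apply, ArithmeticFunction.one_apply] at a
    have b : (n.gcd M).divisors = {e ∈ M.divisors | e ∣ n} := by
      ext e
      have := Nat.gcd_pos_of_pos_right n hM
      simp only [Nat.mem_divisors, mem_filter, Nat.dvd_gcd_iff]
      exact ⟨fun h => ⟨⟨h.1.2, hM.ne'⟩, h.1.1⟩, fun h => ⟨⟨h.2, h.1.1⟩, this.ne'⟩⟩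
    rw [← sum_filter, ← sum_mul, ← b, ← Int.cast_sum, a]
    by_cases h : n.Coprime M
    · simp [h]
    · rw [if_neg h, if_neg h]
      simp
  rw [sum_filter, sum_congr rfl h1, sum_comm]
  refine sum_congr rfl fun e he => ?_
  have e0 := Nat.pos_of_mem_divisors he
  rw [← sum_filter, mul_sum]
  symm
  refine sum_nbij' (fun m => e * m) (fun n => n / e) (fun m hm => ?_) (fun n hn => ?_)
    (fun m _ => Nat.mul_div_cancel_left m e0) (fun n hn => Nat.mul_div_cancel' (mem_filter.1 hn).2)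
    fun m hm => ?_
  · rw [mem_Icc, Nat.le_div_iff_mul_le e0] at hm
    exact mem_filter.2 ⟨mem_Icc.2 ⟨Nat.mul_pos e0 hm.1, by rw [mul_comm]; exact hm.2⟩,
      dvd_mul_right _ _⟩
  · obtain ⟨h, k, rfl⟩ := mem_filter.1 hn
    rw [mem_Icc] at h ⊢
    rw [Nat.mul_div_cancel_left k e0, Nat.le_div_iff_mul_le e0, mul_comm]
    exact ⟨Nat.pos_of_mul_pos_left h.1, h.2⟩
  · rw [lam_mul e0.ne' (by have := (mem_Icc.1 hm).1; omega)]
    push_cast
    ring

theorem npr_units (hL : LIO_s) (hT : TAU_s) (hP : PHI_s) (η : ℝ) (hη : 0 < η) : ∃ M₀ : ℕ, ∀ M : ℕ,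
    M₀ ≤ M → |∑ n ∈ Icc 1 M with n.Coprime M, (lam n : ℝ)| ≤ η * M.totient := by
  obtain ⟨C, hC, hL⟩ := hL 3
  obtain ⟨D, hD, hT⟩ := hT.2 (1 / 4) (by norm_num)
  obtain ⟨P, hP0, hP⟩ := hP
  have t1 : ∀ᶠ x : ℝ in atTop, max 2 (64 * C * P / η) ≤ Real.log x :=
    Real.tendsto_log_atTop.eventually_ge_atTop _
  have t2 := (isLittleO_log_rpow_atTop (show (0 : ℝ) < 1 / 4 by norm_num)).bound
    (show 0 < η / (4 * D * P) by positivity)
  obtain ⟨M₀, h⟩ := eventually_atTop.1 (tendsto_natCast_atTop_atTop.eventually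
    (t1.and (t2.and (eventually_ge_atTop 4))))
  refine ⟨M₀, fun M hM => ?_⟩
  obtain ⟨a1, a2, a3⟩ := h M hM
  have M4 : 4 ≤ M := by exact_mod_cast a3
  have M0 : (0 : ℝ) < M := by linarith
  have l2 := (le_max_left _ _).trans a1
  have l3 := (div_le_iff₀ hη).1 ((le_max_right _ _).trans a1)
  obtain ⟨L, hLe⟩ : ∃ L, L = Real.log M := ⟨_, rfl⟩
  rw [Real.norm_of_nonneg (by linarith), Real.norm_of_nonneg (by positivity)] at a2
  have b1 : ∀ e ∈ M.divisors, |(ArithmeticFunction.moebius e : ℝ) * lam e *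
      ∑ m ∈ Icc 1 (M / e), (lam m : ℝ)| ≤ 8 * C * M / L ^ 3 * (e : ℝ)⁻¹ + √M := by
    intro e he
    have e0 : (0 : ℝ) < e := Nat.cast_pos.2 (Nat.pos_of_mem_divisors he)
    have c1 : |(ArithmeticFunction.moebius e : ℝ) * lam e| ≤ 1 := by
      have := ArithmeticFunction.abs_moebius_le_one (n := e)
      rcases lam_cases e with a | a <;> simp [a] <;> exact_mod_cast this
    rw [abs_mul]
    refine (mul_le_of_le_one_left (abs_nonneg _) c1).trans ?_
    have c0 : 0 ≤ 8 * C * M / L ^ 3 * (e : ℝ)⁻¹ := by rw [hLe]; positivity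
    by_cases hy : ((M / e : ℕ) : ℝ) ≤ √M
    · refine (abs_sum_le_sum_abs _ _).trans ((sum_le_card_nsmul _ _ 1 fun m _ => ?_).trans ?_)
      · rcases lam_cases m with a | a <;> simp [a]
      · simp only [Nat.card_Icc, Nat.add_sub_cancel, nsmul_eq_mul, mul_one]
        linarith
    · rw [not_le] at hy
      have s2 : (2 : ℝ) ≤ √M := Real.le_sqrt_of_sq_le (by linarith)
      have c2 := hL (M / e) (by exact_mod_cast s2.trans hy.le)
      have c3 : L / 2 ≤ Real.log (M / e : ℕ) := by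
        rw [hLe, ← Real.log_sqrt M0.le]
        exact Real.log_le_log (by linarith) hy.le
      have c4 : ((M / e : ℕ) : ℝ) ≤ M / e := Nat.cast_div_le
      have L0 : 0 < L := by linarith
      refine c2.trans (le_add_of_le_of_nonneg ?_ (by positivity))
      calc _ ≤ C * (M / e) / (L / 2) ^ 3 := by gcongr
        _ = _ := by field_simp; ring
  have b2 : ∑ e ∈ M.divisors, (e : ℝ)⁻¹ ≤ 2 * L := by
    have a := harmonic_le_one_add_log M
    rw [harmonic_eq_sum_Icc] at a
    push_cast at a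
    refine (sum_le_sum_of_subset_of_nonneg (fun e he => mem_Icc.2
      ⟨Nat.pos_of_mem_divisors he, Nat.divisor_le he⟩) fun _ _ _ => by positivity).trans ?_
    linarith
  have b3 : (M : ℝ) ≤ P * M.totient * (2 * L) := by
    refine (hP M (by omega)).trans (mul_le_mul_of_nonneg_left ?_ (by positivity))
    have a : (Nat.log 2 M : ℝ) * Real.log 2 ≤ L := by
      rw [hLe, ← Real.log_pow]
      exact Real.log_le_log (by positivity)
        (by exact_mod_cast Nat.pow_log_le_self 2 (by omega : M ≠ 0))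
    have b : (1 : ℝ) ≤ Nat.log 2 M := by
      exact_mod_cast Nat.le_log_of_pow_le one_lt_two (by omega : 2 ^ 1 ≤ M)
    refine (Real.rpow_le_self_of_one_le b (by norm_num)).trans ?_
    nlinarith [Real.log_two_gt_d9]
  rw [npr_id (by omega)]
  refine (abs_sum_le_sum_abs _ _).trans ((sum_le_sum b1).trans ?_)
  rw [sum_add_distrib, ← mul_sum, sum_const, nsmul_eq_mul]
  rw [← hLe] at a2 l2 l3
  have L0 : 0 < L := by linarith
  have φ0 : (0 : ℝ) ≤ M.totient := Nat.cast_nonneg _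
  have d1 : 8 * C * M / L ^ 3 * ∑ e ∈ M.divisors, (e : ℝ)⁻¹ ≤ η / 2 * M.totient := by
    calc _ ≤ 8 * C * (P * M.totient * (2 * L)) / L ^ 3 * (2 * L) := by gcongr
      _ = 64 * C * P / (2 * L) * M.totient := by field_simp; ring
      _ ≤ _ := by
        refine mul_le_mul_of_nonneg_right ?_ φ0
        rw [div_le_iff₀ (by positivity)]
        linarith
  have d2 : (#M.divisors : ℝ) * √M ≤ η / 2 * M.totient := by
    obtain ⟨r, hr⟩ : ∃ r, r = (M : ℝ) ^ (1 / 4 : ℝ) := ⟨_, rfl⟩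
    have r0 : 0 < r := by rw [hr]; positivity
    have r2 : √M = r ^ 2 := by
      rw [hr, ← Real.rpow_natCast, ← Real.rpow_mul M0.le, Real.sqrt_eq_rpow]; norm_num
    have r4 : (M : ℝ) = r ^ 4 := by
      rw [show r ^ 4 = (r ^ 2) ^ 2 by ring, ← r2, Real.sq_sqrt M0.le]
    have a := hT M
    rw [← hr] at a a2
    have b : r ^ 4 ≤ P * M.totient * (2 * (η / (4 * D * P) * r)) := by
      rw [← r4]
      exact b3.trans (by gcongr)
    have c : P * M.totient * (2 * (η / (4 * D * P) * r)) = η / 2 * M.totient / D * r := by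
      field_simp; ring
    rw [c, show r ^ 4 = r ^ 3 * r by ring] at b
    have d := (le_div_iff₀ hD).1 (le_of_mul_le_mul_right b r0)
    rw [r2]
    nlinarith [mul_le_mul_of_nonneg_right a (sq_nonneg r)]
  linarith

theorem npr_row (hL : LIO_s) (hT : TAU_s) (hP : PHI_s) : NPR_s := by
  obtain ⟨M₀, h⟩ := npr_units hL hT hP (1 / 2) (by norm_num)
  refine ⟨M₀ + 2, fun N _ hN => ?_⟩
  have a := h N (by omega)
  have φ0 : (0 : ℝ) < N.totient := Nat.cast_pos.2 (Nat.totient_pos.2 (by omega))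
  have b : ∑ x : ZMod N, (ff N x : ℂ) * (starRingEnd ℂ) ((1 : Ch N) x) =
      ((∑ n ∈ Icc 1 N with n.Coprime N, (lam n : ℝ) : ℝ) : ℂ) := by
    classical
    have : Fact (1 < N) := ⟨by omega⟩
    rw [← sum_filter_add_sum_filter_not univ fun x : ZMod N => IsUnit x,
      sum_eq_zero (s := {x : ZMod N | ¬IsUnit x}) fun x hx => by
        rw [MulChar.map_nonunit _ (mem_filter.1 hx).2]; simp, add_zero]
    push_cast
    symm
    have v : ∀ n ∈ {n ∈ Icc 1 N | n.Coprime N}, n < N := fun n hn => by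
      obtain ⟨h1, h2⟩ := mem_filter.1 hn
      refine lt_of_le_of_ne (mem_Icc.1 h1).2 ?_
      rintro rfl
      simp at h2
      omega
    refine sum_nbij' (fun n => (n : ZMod N)) ZMod.val (fun n hn => ?_) (fun x hx => ?_)
      (fun n hn => ZMod.val_cast_of_lt (v n hn)) (fun x _ => ZMod.natCast_zmod_val x)
      fun n hn => ?_
    · exact mem_filter.2 ⟨mem_univ _, (ZMod.isUnit_iff_coprime n N).2 (mem_filter.1 hn).2⟩
    · have u := (mem_filter.1 hx).2
      refine mem_filter.2 ⟨mem_Icc.2 ⟨ZMod.val_pos.2 u.ne_zero, (ZMod.val_lt x).le⟩, ?_⟩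
      rwa [← ZMod.isUnit_iff_coprime, ZMod.natCast_zmod_val]
    · have u := (ZMod.isUnit_iff_coprime n N).2 (mem_filter.1 hn).2
      simp [ff, u.ne_zero, MulChar.one_apply u, ZMod.val_cast_of_lt (v n hn)]
  unfold nu cu
  rw [b, norm_div, Complex.norm_real, Complex.norm_natCast, Real.norm_eq_abs]
  have c := (div_le_iff₀ φ0).2 a
  have d := pow_le_pow_left₀ (by positivity) c 2
  linarith

end Pool.Agent.G42
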