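import Pool.Agent.MP_b5e119_nt.G42A.EDefs
import Pool.Agent.MP_b5e119_nt.G42X.KEYX
import Pool.Agent.MP_b5e119_nt.G6X.REP

namespace Pool.Agent.G42

open Finset Filter Topology Pool.Agent.G60 DirichletCharacter
open Pool.Agent.G27 (nu re EX UN re_unit re_coe re_mul)
open Pool.Agent.G94 (Rough)

theorem repa_cu {M : ℕ} {χ : Ch M} (h : χ ^ 2 = 1) : CU (fun n => lam n * re χ n) M := by
  refine ⟨fun n _ _ hn => ?_, fun a b ha hb _ => ?_⟩
  · rcases lam_cases n with a | a <;> rcases re_unit h hn with b | b <;> simp [a, b]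
  · simp only
    rw [lam_mul ha.ne' hb.ne', re_mul h]
    ring

theorem repa_ex {M : ℕ} {χ : Ch M} (h : χ ^ 2 = 1) (σ : ℤ) :
    #{u ∈ UY M 0 | lam u * re χ u ≠ σ} ≤ EX χ σ := by
  refine card_le_card fun u hu => ?_
  simp only [UY, YY, mem_filter, mem_Icc, mem_Ico, pow_zero, Nat.div_one] at hu ⊢
  obtain ⟨⟨⟨a, b⟩, c⟩, d⟩ := hu
  refine ⟨⟨a, by omega⟩, c, fun e => d ?_⟩
  rw [e]
  rcases re_unit h c with b | b <;> simp [b]

theorem repa_bd {P : ℕ} {ξ : Ch P} (h : ξ ^ 2 = 1) {X Z : ℝ} (hX : 0 ≤ X) (hZ : 0 ≤ Z)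
    (hB : ∀ T : ℕ, X ≤ T → |∑ t ∈ range T, (re ξ (1 + t) : ℝ)| ≤ T * Z) {Y W : ℕ} (hY : Y ≤ W) :
    ‖∑ n ∈ Icc 1 Y, ξ (n : ZMod P)‖ ≤ X + W * Z := by
  have w0 : 0 ≤ (W : ℝ) * Z := by positivity
  by_cases hx : X ≤ Y
  · have s1 : ∑ n ∈ Icc 1 Y, ξ (n : ZMod P) = ((∑ t ∈ range Y, (re ξ (1 + t) : ℝ) : ℝ) : ℂ) := by
      rw [range_eq_Ico, ← Ico_add_one_right_eq_Icc, ← sum_Ico_add' _ 0 Y 1]
      push_cast
      exact sum_congr rfl fun t _ => by rw [re_coe h, add_comm 1 t]; push_cast; rfl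
    rw [s1, Complex.norm_real, Real.norm_eq_abs]
    have := mul_le_mul_of_nonneg_right (Nat.cast_le (α := ℝ).2 hY) hZ
    linarith [hB Y hx]
  · have := (norm_sum_le _ _).trans (sum_le_card_nsmul (Icc 1 Y) (fun n : ℕ => ‖ξ (n : ZMod P)‖) 1
      fun n _ => ξ.norm_le_one _)
    rw [Nat.card_Icc, Nat.add_sub_cancel, nsmul_eq_mul, mul_one] at this
    linarith [not_le.1 hx]

theorem repa_mj (S : Finset ℕ) (G : ℕ → ℤ) : mj S G = 1 ∨ mj S G = -1 := by
  unfold mj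
  split_ifs <;> simp

theorem repa_row (h1 : RGA_s) (h2 : SVB_s) (h3 : SVV_s) (h4 : G27.BURGG_s) : REPA_s := by
  classical
  obtain ⟨N₁, rga⟩ := h1
  obtain ⟨s, svb⟩ := h2
  obtain ⟨s₂, c, C₂, hc, -, svv⟩ := h3
  obtain ⟨κ, hκ, κ1, r₀, hB⟩ := h4
  obtain ⟨h, hh⟩ := exists_nat_ge (1 / κ)
  have hh1 : 1 ≤ κ * h := by rwa [div_le_iff₀' hκ] at hh
  have h1000 : 1000 ≤ h := by
    have : (1000 : ℝ) ≤ h := by nlinarith [Nat.cast_nonneg (α := ℝ) h]
    exact_mod_cast this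
  obtain ⟨k, hk⟩ : ∃ k, k = h * (s + 3) := ⟨_, rfl⟩
  have k1 : 1000 * 3 ≤ k := by rw [hk]; exact Nat.mul_le_mul h1000 (by omega)
  obtain ⟨w₀, big⟩ := keyx_big (128 * k / c)
  refine ⟨c / (512 * 2 ^ (5 * k)), by positivity, N₁ + r₀ + 2 ^ (k * (w₀ + 10)),
    fun M M' _ _ h0 hle hsq χ χ' σ σ' hχ hχ' hσ hσ' hE hE' n hn => ?_⟩
  have N0 : 0 < M := Nat.pos_of_ne_zero (NeZero.ne M)
  have g1 : N₁ ≤ M := le_of_add_le_left (le_of_add_le_left h0)
  have g2 : r₀ ≤ M := le_of_add_le_right (le_of_add_le_left h0)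
  have N1 : 0 < M' := N0.trans_le hle
  have : NeZero (M * M') := ⟨(Nat.mul_pos N0 N1).ne'⟩
  obtain ⟨ξ, hξ⟩ : ∃ ξ, ξ = changeLevel (dvd_mul_right M M') χ *
    changeLevel (dvd_mul_left M' M) χ' := ⟨_, rfl⟩
  have AB : ξ ^ 2 = 1 := by
    rw [hξ, mul_pow, ← map_pow, ← map_pow, hχ, hχ', map_one, map_one, one_mul]
  have hv : ∀ n : ℕ, n.Coprime (M * M') →
      ξ (n : ZMod (M * M')) = ((re χ n * re χ' n : ℤ) : ℂ) := fun n hn => by
    push_cast
    rw [re_coe hχ, re_coe hχ', hξ, MulChar.mul_apply, G6X.rep_lev _ _ hn, G6X.rep_lev _ _ hn]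
  by_cases hne : ξ = 1
  · have e := hv n hn
    rw [hne, MulChar.one_apply ((ZMod.isUnit_iff_coprime n _).2 hn)] at e
    have e' : (1 : ℤ) = re χ n * re χ' n := by exact_mod_cast e
    rw [← re_coe hχ, ← re_coe hχ']
    rcases re_unit hχ hn.coprime_mul_right_right with a | a <;>
      rcases re_unit hχ' hn.coprime_mul_left_right with b | b <;> rw [a, b] at e' ⊢ <;> omega
  exfalso
  have l0 : k * (w₀ + 10) ≤ Nat.log 2 M := Nat.le_log_of_pow_le one_lt_two (le_of_add_le_right h0)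
  have l1 : Nat.log 2 M ≤ Nat.log 2 M' := Nat.log_mono_right hle
  have l2 : M < 2 ^ (Nat.log 2 M + 1) := Nat.lt_pow_succ_log_self one_lt_two M
  have l3 : M' < 2 ^ (Nat.log 2 M' + 1) := Nat.lt_pow_succ_log_self one_lt_two M'
  have l4 : Nat.log 2 M' * 100 ≤ (Nat.log 2 M + 1) * 201 := by
    rw [← Nat.pow_le_pow_iff_right one_lt_two, pow_mul, pow_mul]
    exact (Nat.pow_le_pow_left (Nat.pow_log_le_self 2 N1.ne') _).trans
      (hsq.trans (Nat.pow_le_pow_left l2.le _))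
  have l5 : 2 ^ Nat.log 2 M ≤ M := Nat.pow_log_le_self 2 N0.ne'
  have w1 : w₀ + 10 ≤ Nat.log 2 M / k := (Nat.le_div_iff_mul_le (by omega)).2 (by rwa [mul_comm])
  have w2 : k * (Nat.log 2 M / k) ≤ Nat.log 2 M := Nat.mul_div_le _ _
  have w3 : Nat.log 2 M < k * (Nat.log 2 M / k + 1) := Nat.lt_mul_div_succ _ (by omega)
  have d1 := fun a b => rga _ M (Nat.log 2 M / k) (5 * k) σ _ g1 (repa_cu hχ) a b hσ
    ((Nat.cast_le.2 (repa_ex hχ σ)).trans hE)
  have d2 := fun a b => rga _ M' (Nat.log 2 M / k) (5 * k) σ' _ (g1.trans hle) (repa_cu hχ') a b hσ'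
    ((Nat.cast_le.2 (repa_ex hχ' σ')).trans hE')
  generalize Nat.log 2 M = l at *
  generalize Nat.log 2 M' = l' at *
  generalize l / k = w at *
  have wp : 0 < w := by omega
  have f0 : 10 * k ≤ k * w := by rw [mul_comm]; exact Nat.mul_le_mul_left _ (by omega)
  have f1 : k * w = h * ((s + 3) * w) := by rw [hk]; ring
  have f2 : 1000 * ((s + 3) * w) ≤ h * ((s + 3) * w) := Nat.mul_le_mul_right _ h1000
  have f3 : (s + 3) * w = s * w + 3 * w := by ring
  have f4 : w * (5 * k) = 5 * (k * w) := by ring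
  have f5 : w * (2 * (4 * k)) = 8 * (k * w) := by ring
  rw [mul_add, mul_one] at w3
  replace d1 := d1 wp (l2.trans_le (by
    rw [← pow_mul]; exact Nat.pow_le_pow_right two_pos (by omega)))
  replace d2 := d2 wp (l3.trans_le (by
    rw [← pow_mul]; exact Nat.pow_le_pow_right two_pos (by omega)))
  obtain ⟨t, ht⟩ : ∃ t, t = l / 100 := ⟨_, rfl⟩
  have tp : (0 : ℝ) < t := by exact_mod_cast (by omega : 0 < t)
  have wr : (0 : ℝ) < w := by exact_mod_cast wp
  have e0 : ∀ G N i, 0 ≤ er G N w i := fun G N i => by unfold er; positivity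
  have sub : ∀ G N L, l ≤ L → ∑ i ∈ Ico (97 * t) (98 * t), er G N w i ≤
      ∑ i ∈ range (99 * L / 100), er G N w i := fun G N L hL =>
    sum_le_sum_of_subset_of_nonneg (fun i hi => by
      rw [mem_Ico] at hi
      rw [mem_range]
      omega) fun i _ _ => e0 G N i
  obtain ⟨i, hi, hs⟩ : ∃ i ∈ Ico (97 * t) (98 * t), er (fun n => lam n * re χ n) M w i +
      er (fun n => lam n * re χ' n) M' w i ≤ c / 16 / t := by
    refine exists_le_of_sum_le ⟨97 * t, mem_Ico.2 (by omega)⟩ ?_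
    rw [sum_add_distrib, sum_const, Nat.card_Ico, show 98 * t - 97 * t = t by omega, nsmul_eq_mul]
    refine (add_le_add ((sub _ _ _ le_rfl).trans d1) ((sub _ _ _ l1).trans d2)).trans (le_of_eq ?_)
    field_simp
    ring
  rw [mem_Ico] at hi
  have P : (0 : ℝ) < 2 ^ i := by positivity
  have hs' : (#{d ∈ SN M w i | lam d * re χ d ≠ mj (SN M w i) fun n => lam n * re χ n} : ℝ) +
      #{d ∈ SN M' w i | lam d * re χ' d ≠ mj (SN M' w i) fun n => lam n * re χ' n} ≤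
        2 ^ i * (c / w) / 16 := by
    unfold er at hs
    rw [← add_div, div_le_iff₀ P] at hs
    refine hs.trans ?_
    have : c / t ≤ c / w := div_le_div_of_nonneg_left hc.le wr (by exact_mod_cast (by omega : w ≤ t))
    calc c / 16 / t * 2 ^ i = 2 ^ i * (c / t) / 16 := by ring
      _ ≤ _ := by gcongr
  have m1 := repa_mj (SN M w i) fun n => lam n * re χ n
  have m2 := repa_mj (SN M' w i) fun n => lam n * re χ' n
  generalize (mj (SN M w i) fun n => lam n * re χ n) = τ at hs' m1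
  generalize (mj (SN M' w i) fun n => lam n * re χ' n) = τ' at hs' m2
  have hΘ : ‖((τ * τ' : ℤ) : ℂ)‖ = 1 := by
    rcases m1 with rfl | rfl <;> rcases m2 with rfl | rfl <;> simp
  have c0 : M * M' < 2 ^ (l + 1 + (l' + 1)) := by
    rw [pow_add]; exact Nat.mul_lt_mul'' l2 l3
  have c1 : ((M * M' : ℕ) : ℝ) ≤ 2 ^ (l + 1 + (l' + 1)) := by exact_mod_cast c0.le
  have c2 : (2 : ℝ) ^ l ≤ (M * M' : ℕ) := by
    exact_mod_cast l5.trans (Nat.le_mul_of_pos_right M N1)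
  have D8 : (2 : ℝ) ^ (s * w) * 8 ≤ 2 ^ ((s + 3) * w) := by
    rw [show (8 : ℝ) = 2 ^ 3 by norm_num, ← pow_add]
    exact pow_le_pow_right₀ one_le_two (by omega)
  have x1 : (1 : ℝ) ≤ ((M * M' : ℕ) : ℝ) ^ (0.32 : ℝ) :=
    Real.one_le_rpow ((one_le_pow₀ one_le_two).trans c2) (by norm_num)
  have x2 : ((M * M' : ℕ) : ℝ) ^ (0.32 : ℝ) * 2 ^ ((s + 3) * w) ≤ 2 ^ i := by
    refine (mul_le_mul_of_nonneg_right (Real.rpow_le_rpow (by positivity) c1 (by norm_num))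
      (by positivity)).trans ?_
    rw [← Real.rpow_natCast, ← Real.rpow_natCast, ← Real.rpow_natCast,
      ← Real.rpow_mul two_pos.le, ← Real.rpow_add two_pos]
    refine Real.rpow_le_rpow_of_exponent_le one_le_two ?_
    have : (((32 * (l + 1 + (l' + 1)) + 100 * ((s + 3) * w) : ℕ)) : ℝ) ≤ (100 * i : ℕ) :=
      Nat.cast_le.2 (by omega)
    push_cast at this ⊢
    linarith only [this]
  have y0 : 0 ≤ ((M * M' : ℕ) : ℝ) ^ (-κ) := by positivity
  have y1 : ((M * M' : ℕ) : ℝ) ^ (-κ) * 2 ^ ((s + 3) * w) ≤ 1 := by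
    refine (mul_le_mul_of_nonneg_right (Real.rpow_le_rpow_of_nonpos (by positivity) c2
      (by linarith only [hκ])) (by positivity)).trans ?_
    rw [← Real.rpow_natCast, ← Real.rpow_natCast, ← Real.rpow_mul two_pos.le,
      ← Real.rpow_add two_pos]
    refine Real.rpow_le_one_of_one_le_of_nonpos one_le_two ?_
    have a1 : (h : ℝ) * ((s + 3) * w : ℕ) ≤ l := by exact_mod_cast (by omega : h * ((s + 3) * w) ≤ l)
    have a2 := mul_le_mul_of_nonneg_left a1 hκ.le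
    have a3 := mul_le_mul_of_nonneg_right hh1 (Nat.cast_nonneg (α := ℝ) ((s + 3) * w))
    linarith only [a2, a3]
  have low := svb (M * M') ξ _ w i _ hΘ wp (fun Y hY => repa_bd AB (zero_le_one.trans x1) y0
    (hB (M * M') (g2.trans (Nat.le_mul_of_pos_right M N1)) ξ AB hne 1) hY) (by
      have D0 : (0 : ℝ) ≤ 2 ^ (s * w) := by positivity
      have a1 := (mul_le_mul_of_nonneg_left D8 (zero_le_one.trans x1)).trans x2
      have a2 := mul_le_mul_of_nonneg_left ((mul_le_mul_of_nonneg_left D8 y0).trans y1) P.le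
      have a3 := mul_le_mul_of_nonneg_right x1 D0
      rw [Nat.cast_pow, Nat.cast_ofNat, pow_succ]
      linarith only [a1, a2, a3, P])
  have nun := keyx_nu (M * M') w (4 * k) (2 ^ (i + 1)) (NeZero.ne _) wp
    ((Nat.log_lt_of_lt_pow (NeZero.ne _) c0).le.trans (by omega))
    {d ∈ Ioc (2 ^ i) (2 ^ (i + 1)) | Rough (2 ^ w) d ∧ ¬d.Coprime (M * M')} fun d hd => by
      obtain ⟨x, y⟩ := mem_filter.1 hd
      exact ⟨Ioc_subset_Ioc_left (Nat.zero_le _) x, y⟩
  have sp := low.trans (keyx_split _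
    {d ∈ Ioc (2 ^ i) (2 ^ (i + 1)) | Rough (2 ^ w) d ∧ ¬d.Coprime (M * M')}
    ({d ∈ SN M w i | lam d * re χ d ≠ τ} ∪ {d ∈ SN M' w i | lam d * re χ' d ≠ τ'})
    (Ioc (2 ^ i) (2 ^ (i + 1))) _ (fun _ => 0) (fun _ => le_rfl) fun d hd => by
      obtain ⟨x, y⟩ := mem_filter.1 hd
      by_cases z : d.Coprime (M * M')
      · have z1 := z.coprime_mul_right_right
        have z2 := z.coprime_mul_left_right
        rw [hv d z, map_intCast, ← Int.cast_mul, Complex.intCast_re]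
        by_cases p : lam d * re χ d = τ ∧ lam d * re χ' d = τ'
        · refine Or.inr (Or.inr ⟨x, ?_⟩)
          rw [← p.1, ← p.2]
          rcases lam_cases d with a | a <;> rcases re_unit hχ z1 with b | b <;>
            rcases re_unit hχ' z2 with c | c <;> rw [a, b, c] <;> norm_num
        · refine Or.inr (Or.inl ⟨mem_union.2 ((not_and_or.1 p).imp
            (fun p => mem_filter.2 ⟨mem_filter.2 ⟨x, y, z1⟩, p⟩)
            fun p => mem_filter.2 ⟨mem_filter.2 ⟨x, y, z2⟩, p⟩), ?_⟩)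
          rcases m1 with rfl | rfl <;> rcases m2 with rfl | rfl <;>
            rcases re_unit hχ z1 with b | b <;> rcases re_unit hχ' z2 with c | c <;>
              rw [b, c] <;> norm_num
      · refine Or.inl ⟨mem_filter.2 ⟨x, y, z⟩, ?_⟩
        rw [ξ.map_nonunit fun h => z ((ZMod.isUnit_iff_coprime d _).1 h)]
        simp)
  have V := (svv w wp).1
  have uA : (#{d ∈ Ioc (2 ^ i) (2 ^ (i + 1)) | Rough (2 ^ w) d ∧ ¬d.Coprime (M * M')} : ℝ) ≤
      2 ^ i * VZ w / 8 := by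
    have n1 : (#{d ∈ Ioc (2 ^ i) (2 ^ (i + 1)) | Rough (2 ^ w) d ∧ ¬d.Coprime (M * M')} : ℝ) *
        2 ^ w ≤ 2 * (4 * k) * 2 ^ (i + 1) := by exact_mod_cast nun
    have V0 : 0 < VZ w := lt_of_lt_of_le (by positivity) V
    refine le_of_mul_le_mul_right (n1.trans ?_) (by positivity : (0 : ℝ) < 2 ^ w)
    calc 2 * (4 * (k : ℝ)) * 2 ^ (i + 1) = 2 ^ i * (c / w) / 8 * (128 * k / c * w) := by
          field_simp; ring
      _ ≤ _ := mul_le_mul (div_le_div_of_nonneg_right (mul_le_mul_of_nonneg_left V P.le)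
          (by norm_num)) (big w (by omega)) (by positivity) (by positivity)
  have uB := (Nat.cast_le (α := ℝ)).2 (card_union_le {d ∈ SN M w i | lam d * re χ d ≠ τ}
    {d ∈ SN M' w i | lam d * re χ' d ≠ τ'})
  have p1 : 0 < (2 : ℝ) ^ i * (c / w) := by positivity
  have p2 := mul_le_mul_of_nonneg_left V P.le
  rw [sum_const_zero] at sp
  rw [Nat.cast_add] at uB
  linarith only [sp, uA, uB, hs', p1, p2]

end Pool.Agent.G42
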