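import Pool.Agent.MP_b5e119_nt.G42A.EDefs

namespace Pool.Agent.G42

open Finset Filter Topology Pool.Agent.G60
open Pool.Agent.G27 (UN)
open Pool.Agent.G94 (Rough)

theorem rga_mem {M w i d : ℕ} (h : d ∈ SN M w i) :
    2 ^ i < d ∧ d ≤ 2 ^ (i + 1) ∧ Rough (2 ^ w) d ∧ d.Coprime M := by
  classical
  unfold SN at h
  simp only [mem_filter, mem_Ioc] at h
  exact ⟨h.1.1, h.1.2, h.2.1, h.2.2⟩

theorem rga_div (hR : G94.RG_s) (M w K I u : ℕ) (hw : 1 ≤ w) (hu : 0 < u) (hK : u < (2 ^ w) ^ K) :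
    ∑ i ∈ range I, #{d ∈ SN M w i | d ∣ u} ≤ 2 ^ K := by
  classical
  have hd : ((range I : Finset ℕ) : Set ℕ).PairwiseDisjoint (fun i => {d ∈ SN M w i | d ∣ u}) := by
    intro i _ j _ hij
    rw [Function.onFun, Finset.disjoint_left]
    intro q hi hj
    obtain ⟨a1, a2, -⟩ := rga_mem (mem_filter.1 hi).1
    obtain ⟨b1, b2, -⟩ := rga_mem (mem_filter.1 hj).1
    have h1 : i < j + 1 := (Nat.pow_lt_pow_iff_right (by norm_num : 1 < 2)).1 (lt_of_lt_of_le a1 b2)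
    have h2 : j < i + 1 := (Nat.pow_lt_pow_iff_right (by norm_num : 1 < 2)).1 (lt_of_lt_of_le b1 a2)
    omega
  rw [← Finset.card_biUnion hd]
  have h2 : 2 ≤ 2 ^ w := by
    calc 2 = 2 ^ 1 := by norm_num
      _ ≤ 2 ^ w := Nat.pow_le_pow_right (by norm_num) hw
  refine le_trans (card_le_card fun d hd' => ?_) (hR (2 ^ w) K u h2 hu hK)
  obtain ⟨i, -, hi⟩ := mem_biUnion.1 hd'
  obtain ⟨a, b⟩ := mem_filter.1 hi
  exact mem_filter.2 ⟨Nat.mem_divisors.2 ⟨b, hu.ne'⟩, (rga_mem a).2.2.1⟩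

theorem rga_pair (hM : MAJ_s) (G : ℕ → ℤ) (M w i : ℕ) (σ : ℤ) (hG : CU G M)
    (hi : 2 ^ (i + 1) < M) :
    #{d ∈ SN M w i | G d ≠ mj (SN M w i) G} * #(UY M (i + 1)) ≤
      ∑ u ∈ {u ∈ UY M 0 | G u ≠ σ}, #{d ∈ SN M w i | d ∣ u} := by
  have h1 : ∀ n ∈ UY M (i + 1), #{d ∈ SN M w i | G d ≠ mj (SN M w i) G} ≤
      #{d ∈ SN M w i | G d ≠ σ * G n} := fun n _ =>
    ((hM (SN M w i) G).2 fun d hd => by
      obtain ⟨a1, a2, -, a4⟩ := rga_mem hd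
      exact hG.1 d (lt_of_le_of_lt (Nat.zero_le _) a1) (lt_of_le_of_lt a2 hi) a4).2 _
  have h2 := card_nsmul_le_sum _ _ _ h1
  rw [smul_eq_mul, mul_comm] at h2
  refine h2.trans ?_
  rw [← card_sigma, ← card_sigma]
  refine card_le_card_of_injOn (fun z => (⟨z.2 * z.1, z.2⟩ : Σ _ : ℕ, ℕ)) ?_ ?_
  · intro z hz
    rw [mem_coe, mem_sigma] at hz
    obtain ⟨hn, hd⟩ := hz
    obtain ⟨hd, hne⟩ := mem_filter.1 hd
    obtain ⟨a1, a2, -, a4⟩ := rga_mem hd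
    obtain ⟨hn, hc⟩ := mem_filter.1 hn
    obtain ⟨b1, b2⟩ := mem_Icc.1 hn
    have h0 : 0 < z.2 := lt_of_le_of_lt (Nat.zero_le _) a1
    unfold YY at b2
    rw [Nat.le_div_iff_mul_le (by positivity)] at b2
    have h3 : z.2 * z.1 ≤ M - 1 := by
      calc z.2 * z.1 ≤ 2 ^ (i + 1) * z.1 := Nat.mul_le_mul_right _ a2
        _ = z.1 * 2 ^ (i + 1) := mul_comm _ _
        _ ≤ M - 1 := b2
    have h4 : z.1 ≤ z.2 * z.1 := Nat.le_mul_of_pos_left _ h0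
    have h5 : 0 < 2 ^ (i + 1) := by positivity
    have h6 := hG.2 z.2 z.1 h0 b1 (by omega)
    have h7 := hG.1 z.1 b1 (by omega) hc
    rw [mem_coe, mem_sigma]
    refine ⟨mem_filter.2 ⟨mem_filter.2 ⟨mem_Icc.2 ⟨Nat.mul_pos h0 b1, ?_⟩,
      Nat.Coprime.mul_left a4 hc⟩, ?_⟩, mem_filter.2 ⟨hd, Dvd.intro _ rfl⟩⟩
    · unfold YY
      simpa using h3
    · show G (z.2 * z.1) ≠ σ
      rw [h6]
      intro h
      apply hne
      rw [← h]
      rcases h7 with h7 | h7 <;> rw [h7] <;> ring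
  · intro z hz y _ h
    rw [mem_coe, mem_sigma] at hz
    have h0 : 0 < z.2 := lt_of_le_of_lt (Nat.zero_le _) (rga_mem (mem_filter.1 hz.2).1).1
    have e1 : z.2 * z.1 = y.2 * y.1 := congrArg (fun x : Σ _ : ℕ, ℕ => x.1) h
    have e2 : z.2 = y.2 := by
      have := congrArg (fun x : Σ _ : ℕ, ℕ => x.2) h
      exact this
    rw [← e2] at e1
    exact Sigma.ext (Nat.eq_of_mul_eq_mul_left h0 e1) (heq_of_eq e2)

theorem rga_Y (M i : ℕ) (hM : 2 ^ 200 ≤ M) (hi : i < 99 * Nat.log 2 M / 100) :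
    2 ^ (i + 1) < M ∧ M ≤ YY M (i + 1) * 2 ^ (i + 2) ∧ M ≤ YY M (i + 1) ^ 400 := by
  have h0 : M ≠ 0 := by
    have : 0 < 2 ^ 200 := by positivity
    omega
  have hl : 200 ≤ Nat.log 2 M := Nat.le_log_of_pow_le (by norm_num) hM
  have h1 := Nat.pow_log_le_self 2 h0
  have h2 := Nat.lt_pow_succ_log_self (b := 2) (by norm_num) M
  generalize Nat.log 2 M = l at hi hl h1 h2
  obtain ⟨t, ht⟩ : ∃ t, l = t + (i + 2) := ⟨l - (i + 2), by omega⟩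
  have h3 : 2 ^ (i + 1) < M :=
    lt_of_lt_of_le (Nat.pow_lt_pow_right (by norm_num) (by omega)) h1
  have h4 : 0 < 2 ^ (i + 1) := by positivity
  have h5 : 1 ≤ YY M (i + 1) := by
    unfold YY
    rw [Nat.le_div_iff_mul_le h4]
    omega
  have h6 : M - 1 < YY M (i + 1) * 2 ^ (i + 1) + 2 ^ (i + 1) := Nat.lt_div_mul_add h4
  have h7 : 2 ^ (i + 1) ≤ YY M (i + 1) * 2 ^ (i + 1) := Nat.le_mul_of_pos_left _ h5
  have h8 : YY M (i + 1) * 2 ^ (i + 2) = 2 * (YY M (i + 1) * 2 ^ (i + 1)) := by ring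
  have h9 : M ≤ YY M (i + 1) * 2 ^ (i + 2) := by omega
  refine ⟨h3, h9, ?_⟩
  have h10 : 2 ^ t ≤ YY M (i + 1) := by
    refine Nat.le_of_mul_le_mul_right (c := 2 ^ (i + 2)) ?_ (by positivity)
    rw [← pow_add, ← ht]
    exact h1.trans h9
  calc M ≤ 2 ^ (l + 1) := h2.le
    _ ≤ 2 ^ (t * 400) := Nat.pow_le_pow_right (by norm_num) (by omega)
    _ = (2 ^ t) ^ 400 := pow_mul _ _ _
    _ ≤ YY M (i + 1) ^ 400 := Nat.pow_le_pow_left h10 400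

theorem rga_row (hM : MAJ_s) (hR : G94.RG_s) (hU : UNR_s) : RGA_s := by
  obtain ⟨N₀, hU⟩ := hU
  refine ⟨max N₀ (2 ^ 200), fun G M w K σ η hN hG hw hK _ hB => ?_⟩
  have hM0 : 0 < M := lt_of_lt_of_le (by positivity) (le_of_max_le_right hN)
  have hφ : (0 : ℝ) < M.totient := by exact_mod_cast Nat.totient_pos.2 hM0
  have hMr : (0 : ℝ) < M := by exact_mod_cast hM0
  have h1 : ∀ i ∈ range (99 * Nat.log 2 M / 100), er G M w i * M.totient ≤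
      8 * ∑ u ∈ {u ∈ UY M 0 | G u ≠ σ}, (#{d ∈ SN M w i | d ∣ u} : ℝ) := by
    intro i hi
    obtain ⟨a1, a2, a3⟩ := rga_Y M i (le_of_max_le_right hN) (mem_range.1 hi)
    have b1 : (YY M (i + 1) : ℝ) * M.totient / (2 * M) ≤ #(UY M (i + 1)) :=
      hU M _ (le_of_max_le_left hN) a3
    have b2 : (#{d ∈ SN M w i | G d ≠ mj (SN M w i) G} : ℝ) * #(UY M (i + 1)) ≤
        ∑ u ∈ {u ∈ UY M 0 | G u ≠ σ}, (#{d ∈ SN M w i | d ∣ u} : ℝ) := by
      exact_mod_cast rga_pair hM G M w i σ hG a1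
    have b3 : (M : ℝ) ≤ YY M (i + 1) * 2 ^ (i + 2) := by exact_mod_cast a2
    have b4 : (M.totient : ℝ) / 2 ^ i ≤ 8 * #(UY M (i + 1)) := by
      rw [div_le_iff₀ (by positivity)] at b1 ⊢
      refine le_of_mul_le_mul_right ?_ hMr
      calc (M.totient : ℝ) * M ≤ M.totient * (YY M (i + 1) * 2 ^ (i + 2)) :=
            mul_le_mul_of_nonneg_left b3 hφ.le
        _ = (YY M (i + 1) * M.totient) * (4 * 2 ^ i) := by ring
        _ ≤ (#(UY M (i + 1)) * (2 * M)) * (4 * 2 ^ i) :=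
            mul_le_mul_of_nonneg_right b1 (by positivity)
        _ = _ := by ring
    unfold er
    calc _ = (#{d ∈ SN M w i | G d ≠ mj (SN M w i) G} : ℝ) * (M.totient / 2 ^ i) := by ring
      _ ≤ (#{d ∈ SN M w i | G d ≠ mj (SN M w i) G} : ℝ) * (8 * #(UY M (i + 1))) :=
          mul_le_mul_of_nonneg_left b4 (by positivity)
      _ ≤ _ := by linarith
  have h2 : ∀ u ∈ {u ∈ UY M 0 | G u ≠ σ}, ∑ i ∈ range (99 * Nat.log 2 M / 100),
      (#{d ∈ SN M w i | d ∣ u} : ℝ) ≤ 2 ^ K := by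
    intro u hu
    obtain ⟨a1, a2⟩ := mem_Icc.1 (mem_filter.1 (mem_filter.1 hu).1).1
    have a3 : YY M 0 ≤ M - 1 := Nat.div_le_self _ _
    exact_mod_cast rga_div hR M w K _ u hw a1 (by omega)
  have h3 := sum_le_sum h1
  rw [← sum_mul, ← mul_sum, sum_comm] at h3
  have h4 := sum_le_card_nsmul _ _ _ h2
  rw [nsmul_eq_mul] at h4
  have h5 : (0 : ℝ) ≤ η * M.totient := le_trans (by positivity) hB
  have h6 := mul_le_mul_of_nonneg_right hB (show (0 : ℝ) ≤ 2 ^ K by positivity)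
  have h7 := mul_nonneg h5 (show (0 : ℝ) ≤ 2 ^ K by positivity)
  refine le_of_mul_le_mul_right ?_ hφ
  nlinarith

end Pool.Agent.G42
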