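import Pool.Agent.MP_b5e119_nt.G42A.ZDefs

/-! Row SIZA of campaign h42a: sizes of the sets of units and of primes. -/

namespace Pool.Agent.G42

open Finset

theorem siza_pow (j : ℕ) (hj : 14 ≤ j) : 800 * j ≤ 2 ^ j := by
  induction j, hj using Nat.le_induction with
  | base => norm_num
  | succ n hn ih =>
    rw [pow_succ]
    omega

theorem siza_aa (N a₀ : ℕ) (h : 2 ^ (200 * a₀) ≤ N) :
    a₀ ≤ aa N ∧ 2 ^ (200 * aa N) ≤ N ∧ N < 2 ^ (200 * (aa N + 1)) := by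
  have h0 : N ≠ 0 := by
    have : 0 < 2 ^ (200 * a₀) := by positivity
    omega
  have h1 : 200 * a₀ ≤ Nat.log 2 N := Nat.le_log_of_pow_le (by norm_num) h
  have h2 : 2 ^ Nat.log 2 N ≤ N := Nat.pow_log_le_self 2 h0
  have h3 : N < 2 ^ (Nat.log 2 N + 1) := Nat.lt_pow_succ_log_self (by norm_num) N
  unfold aa
  refine ⟨by omega, le_trans (Nat.pow_le_pow_right (by norm_num) (by omega)) h2,
    lt_of_lt_of_le h3 (Nat.pow_le_pow_right (by norm_num) (by omega))⟩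

theorem siza_div (N j : ℕ) (hN : 0 < N) : (2 ^ j) ^ #{q ∈ PB j | q ∣ N} ≤ N := by
  generalize hS : {q ∈ PB j | q ∣ N} = S
  have hq : ∀ q ∈ S, q ∈ N.primeFactors ∧ 2 ^ j ≤ q := by
    intro q hq
    rw [← hS] at hq
    simp only [PB, mem_filter, mem_Ico] at hq
    exact ⟨Nat.mem_primeFactors.2 ⟨hq.1.2, hq.2, hN.ne'⟩, hq.1.1.1⟩
  have h1 : (2 ^ j) ^ #S ≤ ∏ q ∈ S, q := Finset.pow_card_le_prod S _ _ fun q h => (hq q h).2
  have h2 : ∏ q ∈ S, q ∣ N :=
    (Finset.prod_dvd_prod_of_subset S N.primeFactors _ fun q h => (hq q h).1).trans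
      (Nat.prod_primeFactors_dvd N)
  exact h1.trans (Nat.le_of_dvd hN h2)

theorem siza_row (hU : UNR_s) (hD : DYA_s) : SIZA_s := by
  obtain ⟨N₁, hU⟩ := hU
  obtain ⟨i₀, hi⟩ := hD
  refine ⟨max N₁ (2 ^ (200 * (i₀ + 15))), fun N hN' => ?_⟩
  have hN₁ : N₁ ≤ N := le_trans (le_max_left _ _) hN'
  have hN : 2 ^ (200 * (i₀ + 15)) ≤ N := le_trans (le_max_right _ _) hN'
  obtain ⟨h1, h2, h3⟩ := siza_aa N _ hN
  have hN0 : 0 < N := lt_of_lt_of_le (by positivity) hN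
  clear hN hN'
  generalize aa N = a at h1 h2 h3 ⊢
  refine ⟨fun k hk => ?_, fun j hj => ?_⟩
  · have hY : 2 ^ (24 * a) ≤ YY N k := by
      unfold YY
      rw [Nat.le_div_iff_mul_le (by positivity), ← pow_add]
      have h4 : 2 ^ (24 * a + k) < 2 ^ (200 * a) := Nat.pow_lt_pow_right (by norm_num) (by omega)
      omega
    have h4 : N ≤ YY N k ^ 400 :=
      calc N ≤ 2 ^ (200 * (a + 1)) := h3.le
        _ ≤ 2 ^ (24 * a * 400) := Nat.pow_le_pow_right (by norm_num) (by omega)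
        _ = (2 ^ (24 * a)) ^ 400 := pow_mul _ _ _
        _ ≤ _ := Nat.pow_le_pow_left hY _
    exact hU N (YY N k) hN₁ h4
  · have h4 : 2 ^ j ≤ j * #(PB j) := (hi j (by omega)).1
    have h5 := siza_pow j (by omega)
    have h6 : 800 ≤ #(PB j) :=
      Nat.le_of_mul_le_mul_left (by rw [Nat.mul_comm j 800]; exact h5.trans h4) (by omega : 0 < j)
    have h7 := siza_div N j hN0
    rw [← pow_mul] at h7
    have h8 : j * #{q ∈ PB j | q ∣ N} < 200 * (a + 1) :=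
      (Nat.pow_lt_pow_iff_right (by norm_num : 1 < 2)).1 (lt_of_le_of_lt h7 h3)
    have h9 : #{q ∈ PB j | q ∣ N} < 400 := by
      refine Nat.lt_of_mul_lt_mul_left (a := j) ?_
      omega
    have h10 : #{q ∈ PB j | q ∣ N} + #(PN N j) = #(PB j) :=
      Finset.card_filter_add_card_filter_not (fun q => q ∣ N)
    omega

end Pool.Agent.G42
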