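import Pool.Agent.MP_b5e119_nt.G42A.EDefs
import Pool.Agent.MP_48b1c3_nt.Mg.H48_Sv2

namespace Pool.Agent.G42

open Finset Filter Topology Pool.Agent.G60 Pool.Agent.MP_48b1c3_nt

theorem svb_rem {p : ℕ} (ψ : Ch p) (w : ℂ) (hw : ‖w‖ ≤ 1) (D m : ℕ) (hm : 0 < m) {B : ℝ}
    (h1 : ‖∑ n ∈ Icc 1 (D / m), ψ (n : ZMod p)‖ ≤ B)
    (h2 : ‖∑ n ∈ Icc 1 (2 * D / m), ψ (n : ZMod p)‖ ≤ B) :
    |∑ n ∈ (Ioc D (2 * D)).filter (fun n => m ∣ n), (1 - (ψ (n : ZMod p) * w).re) - D / m| ≤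
      1 + 2 * B := by
  have hb : ∑ n ∈ (Ioc D (2 * D)).filter (fun n => m ∣ n), (1 - (ψ (n : ZMod p) * w).re) =
      ∑ k ∈ Ioc (D / m) (2 * D / m), (1 - (ψ ((m * k : ℕ) : ZMod p) * w).re) := by
    symm
    refine sum_nbij' (fun k => m * k) (fun n => n / m) ?_ ?_ ?_ ?_ fun _ _ => rfl
    · intro k hk
      rw [mem_Ioc, Nat.div_lt_iff_lt_mul hm, Nat.le_div_iff_mul_le hm] at hk
      simp only [mem_filter, mem_Ioc]
      exact ⟨⟨by linarith [hk.1], by linarith [hk.2]⟩, dvd_mul_right _ _⟩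
    · intro n hn
      obtain ⟨hn, k, rfl⟩ := mem_filter.1 hn
      rw [mem_Ioc] at hn
      simp only [Nat.mul_div_cancel_left k hm]
      rw [mem_Ioc, Nat.div_lt_iff_lt_mul hm, Nat.le_div_iff_mul_le hm]
      exact ⟨by linarith [hn.1], by linarith [hn.2]⟩
    · intro k _
      exact Nat.mul_div_cancel_left k hm
    · intro n hn
      exact Nat.mul_div_cancel' (mem_filter.1 hn).2
  have hle : D / m ≤ 2 * D / m := Nat.div_le_div_right (by omega)
  have hI : ∀ n : ℕ, Icc 1 n = Ioc 0 n := fun n => by ext x; simp only [mem_Icc, mem_Ioc]; omega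
  have hs : ∑ k ∈ Ioc (D / m) (2 * D / m), ψ (k : ZMod p) =
      ∑ n ∈ Icc 1 (2 * D / m), ψ (n : ZMod p) - ∑ n ∈ Icc 1 (D / m), ψ (n : ZMod p) := by
    rw [hI, hI, ← sum_Ioc_consecutive (fun k : ℕ => ψ (k : ZMod p)) (Nat.zero_le _) hle]
    ring
  have hre : ∑ k ∈ Ioc (D / m) (2 * D / m), (ψ ((m * k : ℕ) : ZMod p) * w).re =
      (ψ (m : ZMod p) * w * ∑ k ∈ Ioc (D / m) (2 * D / m), ψ (k : ZMod p)).re := by
    rw [mul_sum, Complex.re_sum]
    refine sum_congr rfl fun k _ => ?_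
    rw [Nat.cast_mul, map_mul]
    congr 1
    ring
  have hm' : (0 : ℝ) < m := by exact_mod_cast hm
  have a1 : ((D / m : ℕ) : ℝ) ≤ D / m := Nat.cast_div_le
  have a2 : ((2 * D / m : ℕ) : ℝ) ≤ 2 * (D / m) := by
    have := @Nat.cast_div_le ℝ _ _ _ (2 * D) m
    rw [Nat.cast_mul, Nat.cast_ofNat, mul_div_assoc] at this
    exact this
  have a3 : (D : ℝ) / m < (D / m : ℕ) + 1 := by
    rw [div_lt_iff₀ hm']
    have := Nat.lt_mul_div_succ D hm
    have h : (D : ℝ) < (m * (D / m + 1) : ℕ) := by exact_mod_cast this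
    push_cast at h
    linarith
  have a4 : 2 * ((D : ℝ) / m) < (2 * D / m : ℕ) + 1 := by
    rw [← mul_div_assoc, div_lt_iff₀ hm']
    have := Nat.lt_mul_div_succ (2 * D) hm
    have h : ((2 * D : ℕ) : ℝ) < (m * (2 * D / m + 1) : ℕ) := by exact_mod_cast this
    push_cast at h
    linarith
  have hn : ‖ψ (m : ZMod p) * w * ∑ k ∈ Ioc (D / m) (2 * D / m), ψ (k : ZMod p)‖ ≤
      2 * B := by
    rw [norm_mul, norm_mul, hs]
    have b1 : ‖ψ (m : ZMod p)‖ * ‖w‖ ≤ 1 :=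
      mul_le_one₀ (ψ.norm_le_one _) (norm_nonneg _) hw
    have b2 := (norm_sub_le _ _).trans (add_le_add h2 h1)
    refine (mul_le_mul_of_nonneg_right b1 (norm_nonneg _)).trans ?_
    linarith
  have hr := (Complex.abs_re_le_norm _).trans hn
  rw [hb, sum_sub_distrib, hre, sum_const, Nat.card_Ioc, nsmul_eq_mul, mul_one, Nat.cast_sub hle]
  rw [abs_le] at hr ⊢
  constructor <;> linarith [hr.1, hr.2]

theorem svb_prod (P : Finset ℕ) (hP : ∀ q ∈ P, 2 ≤ q) :
    (∑ S ∈ P.powerset, 64 ^ #S * ∏ q ∈ S, 1 / (q : ℝ)) * (∏ q ∈ P, (1 - 1 / (q : ℝ))) ^ 64 ≤ 1 := by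
  have e : ∑ S ∈ P.powerset, 64 ^ #S * ∏ q ∈ S, 1 / (q : ℝ) = ∏ q ∈ P, (1 + 64 * (1 / (q : ℝ))) := by
    rw [prod_one_add]
    refine sum_congr rfl fun S _ => ?_
    rw [prod_mul_distrib, prod_const]
  rw [e, ← prod_pow, ← prod_mul_distrib]
  refine prod_le_one (fun q hq => ?_) fun q hq => ?_
  · have : (0 : ℝ) ≤ 1 / q := by positivity
    positivity
  · have h2 : (2 : ℝ) ≤ q := by exact_mod_cast hP q hq
    have x0 : (0 : ℝ) ≤ 1 / q := by positivity
    have x1 : (1 : ℝ) / q ≤ 1 / 2 := one_div_le_one_div_of_le two_pos h2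
    generalize (1 : ℝ) / q = x at x0 x1
    have b := one_add_mul_le_pow (show (-2 : ℝ) ≤ x by linarith) 64
    have c : (1 + x) ^ 64 * (1 - x) ^ 64 ≤ 1 := by
      rw [← mul_pow]
      exact pow_le_one₀ (by nlinarith) (by nlinarith)
    refine le_trans (mul_le_mul_of_nonneg_right ?_ (pow_nonneg (by linarith) _)) c
    exact_mod_cast b

theorem svb_ins {z : ℝ} (hz : 2 < z) : H91.Pw 1 z = insert 2 (H91.Pw 2 z) := by
  ext q
  simp only [mem_insert, H91.mem_Pw, Nat.dvd_one]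
  constructor
  · rintro ⟨a, b, _⟩
    by_cases h : q = 2
    · exact Or.inl h
    · exact Or.inr ⟨a, b, fun c => h ((Nat.prime_dvd_prime_iff_eq b Nat.prime_two).1 c)⟩
  · rintro (rfl | ⟨a, b, _⟩)
    · exact ⟨by exact_mod_cast hz, Nat.prime_two, by norm_num⟩
    · exact ⟨a, b, b.ne_one⟩

theorem svb_gg {z : ℝ} {q : ℕ} (hq : q ∈ H91.Pw 2 z) : 1 / (q : ℝ) ≤ H91.gg q := by
  have := H91.mert_three (dvd_refl 2) (H91.mem_Pw.1 hq).2.1 (H91.mem_Pw.1 hq).2.2
  exact one_div_le_one_div_of_le (by linarith) (by linarith)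

theorem svb_mert : ∃ c C : ℝ, 0 < c ∧ 0 < C ∧ ∀ z : ℝ, 2 < z →
    c / Real.log z ≤ ∏ q ∈ H91.Pw 1 z, (1 - 1 / (q : ℝ)) ∧
      ∑ q ∈ H91.Pw 1 z, 1 / (q : ℝ) * Real.log q ≤ C * Real.log z := by
  obtain ⟨c, _, hc, _, h⟩ := H91.VV_bounds two_pos (dvd_refl 2)
  obtain ⟨C, hC, h'⟩ := H91.sum_g_log (dvd_refl 2)
  refine ⟨c / 2, C + 1, by positivity, by positivity, fun z hz => ?_⟩
  have n2 : 2 ∉ H91.Pw 2 z := fun h => (H91.mem_Pw.1 h).2.2 dvd_rfl
  rw [svb_ins hz, prod_insert n2, sum_insert n2]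
  have a : H91.VV 2 z ≤ ∏ q ∈ H91.Pw 2 z, (1 - 1 / (q : ℝ)) :=
    prod_le_prod (fun q hq => by linarith [(H91.mert_gg (dvd_refl 2) hq).2])
      fun q hq => by linarith [svb_gg hq]
  have b : ∑ q ∈ H91.Pw 2 z, 1 / (q : ℝ) * Real.log q ≤ ∑ q ∈ H91.Pw 2 z, H91.gg q * Real.log q :=
    sum_le_sum fun q hq => mul_le_mul_of_nonneg_right (svb_gg hq) (Real.log_natCast_nonneg q)
  have l := Real.log_le_log two_pos hz.le
  have l0 := Real.log_pos one_lt_two
  constructor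
  · have := (h z hz.le).1
    rw [div_right_comm]
    push_cast
    linarith
  · have := h' z hz.le
    push_cast
    linarith

theorem svb_low (n : ℕ) :
    1 / ((n : ℝ) + 1) ≤ ∏ q ∈ range (n + 2) with q.Prime, (1 - 1 / (q : ℝ)) := by
  induction n with
  | zero => simp [range_add_one, filter_insert, filter_singleton, Nat.not_prime_one,
      Nat.not_prime_zero]
  | succ n ih =>
    have n0 : (0 : ℝ) ≤ n := Nat.cast_nonneg n
    have e : 1 / ((n : ℝ) + 1 + 1) = (1 - 1 / ((n : ℝ) + 2)) * (1 / ((n : ℝ) + 1)) := by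
      field_simp
      ring
    have h0 : 0 ≤ 1 - 1 / ((n : ℝ) + 2) := by
      rw [sub_nonneg, div_le_one (by linarith)]; linarith
    rw [show n + 1 + 2 = (n + 2) + 1 from rfl, range_add_one, filter_insert]
    push_cast
    split_ifs
    · rw [prod_insert (by simp), e]
      push_cast
      exact mul_le_mul_of_nonneg_left ih h0
    · exact (one_div_le_one_div_of_le (by linarith) (by linarith)).trans ih

open Classical in
theorem svb_row : SVB_s := by
  obtain ⟨_, C, -, hC, hM⟩ := svb_mert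
  obtain ⟨s, hs⟩ := exists_nat_ge (24 * C + 7200)
  have s0 : (0 : ℝ) < s := by linarith
  refine ⟨s + 67, fun N ψ Θ w m B hΘ hw hB hm => ?_⟩
  have B0 : 0 ≤ B := (norm_nonneg _).trans (hB 0 (Nat.zero_le _))
  obtain ⟨z, hz⟩ : ∃ z : ℝ, z = 2 ^ w := ⟨_, rfl⟩
  have z2 : 2 ≤ z := by rw [hz]; exact le_self_pow₀ one_le_two (by omega)
  have l0 : 0 < Real.log z := Real.log_pos (by linarith)
  have hPe : H91.Pw 1 z = {q ∈ range (2 ^ w) | q.Prime} := by
    ext q
    simp only [H91.mem_Pw, Nat.dvd_one, mem_filter, mem_range, hz]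
    exact ⟨fun h => ⟨by exact_mod_cast h.1, h.2.1⟩,
      fun h => ⟨by exact_mod_cast h.1, h.2, h.2.ne_one⟩⟩
  have hP : ∀ q ∈ H91.Pw 1 z, q.Prime := fun q hq => (H91.mem_Pw.1 hq).2.1
  have hL : ∑ q ∈ H91.Pw 1 z, 1 / (q : ℝ) * Real.log q ≤ C * Real.log z := by
    rcases z2.eq_or_lt with h | h
    · rw [sum_eq_zero fun q hq => ?_]
      · positivity
      · have a := (H91.mem_Pw.1 hq).1
        have b : (2 : ℝ) ≤ q := by exact_mod_cast (hP q hq).two_le
        linarith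
    · exact (hM z h).2
  obtain ⟨V, hVd⟩ : ∃ V : ℝ, V = ∏ q ∈ H91.Pw 1 z, (1 - 1 / (q : ℝ)) := ⟨_, rfl⟩
  have hVZ : VZ w = V := by rw [hVd, hPe, VZ]
  have hV1 : 1 / z ≤ V := by
    obtain ⟨n, hn⟩ : ∃ n, 2 ^ w = n + 2 := Nat.exists_eq_add_of_le' (by
      exact_mod_cast (show (2 : ℝ) ≤ 2 ^ w from hz ▸ z2))
    have hn' : z = n + 2 := by rw [hz]; exact_mod_cast hn
    rw [hVd, hPe, hn, hn']
    exact (one_div_le_one_div_of_le (by positivity) (by linarith)).trans (svb_low n)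
  have V0 : 0 < V := lt_of_lt_of_le (by positivity) hV1
  have hw1 : ‖(starRingEnd ℂ) Θ‖ ≤ 1 := by rw [Complex.norm_conj, hΘ]
  have e1 : ∀ q : ℕ, s / 3 * (3 * Real.log q / (s * Real.log z)) = Real.log q / Real.log z :=
    fun q => by field_simp
  have e2 : ∀ q ∈ H91.Pw 1 z, Real.log q / Real.log z ≤ 1 := fun q hq => (div_le_one l0).2
    (Real.log_le_log (Nat.cast_pos.2 (hP q hq).pos) (H91.mem_Pw.1 hq).1.le)
  have D0 : (0 : ℝ) ≤ (2 ^ m : ℕ) := Nat.cast_nonneg _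
  have key := H91.sieve_sharp (H91.Pw 1 z) (fun q => 1 / (q : ℝ))
    (fun q => 3 * Real.log q / (s * Real.log z)) (Ioc (2 ^ m : ℕ) (2 * 2 ^ m))
    (fun d : ℕ => 1 - (ψ (d : ZMod N) * (starRingEnd ℂ) Θ).re) (fun q d => q ∣ d) (2 ^ m : ℕ)
    (fun d _ => by
      have := (Complex.re_le_norm (ψ (d : ZMod N) * (starRingEnd ℂ) Θ)).trans
        ((norm_mul _ _).trans_le (mul_le_one₀ (ψ.norm_le_one _) (norm_nonneg _) hw1))
      linarith) D0
    (fun q hq => ⟨by positivity, one_div_le_one_div_of_le two_pos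
      (by exact_mod_cast (hP q hq).two_le)⟩) (t := s / 3) (κ := C) (τ := 1 / 600) (by positivity)
    (fun q hq => by
      have a := e2 q hq
      have b : 0 ≤ 3 * Real.log q / (s * Real.log z) := by
        have := Real.log_natCast_nonneg q
        positivity
      rw [← e1] at a
      exact ⟨b, by nlinarith only [hC, hs, a, b], a⟩) (by
      simp only [e1, ← mul_div_assoc]
      rw [← sum_div, div_le_iff₀ l0]
      exact hL) (by
      refine (Real.exp_le_exp.2 (show _ ≤ (-600 : ℝ) by linarith)).trans ?_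
      rw [Real.exp_neg, one_div]
      exact inv_anti₀ (by norm_num) (by linarith [Real.add_one_le_exp (600 : ℝ)])) (by norm_num)
    ((1 + 2 * B) * z ^ s * ∑ S ∈ (H91.Pw 1 z).powerset, 64 ^ #S * ∏ q ∈ S, 1 / (q : ℝ)) (by
      rw [mul_sum]
      refine le_trans (sum_le_sum fun S hS => ?_) (sum_le_sum_of_subset_of_nonneg
        (filter_subset _ _) fun S _ _ => by positivity)
      have hS' := mem_powerset.1 (mem_filter.1 hS).1
      have q0 : ∀ q ∈ S, (0 : ℝ) < q := fun q hq => Nat.cast_pos.2 (hP q (hS' hq)).pos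
      have hm : 0 < ∏ q ∈ S, q := prod_pos fun q hq => (hP q (hS' hq)).pos
      have hm' : (0 : ℝ) < (∏ q ∈ S, q : ℕ) := by exact_mod_cast hm
      have b1 : ((∏ q ∈ S, q : ℕ) : ℝ) ≤ z ^ s := by
        have a := (mem_filter.1 hS).2
        rw [← sum_div, ← mul_sum, div_le_iff₀ (by positivity)] at a
        refine (Real.log_le_log_iff hm' (by positivity)).1 ?_
        rw [Real.log_pow, Nat.cast_prod, Real.log_prod fun q hq => (q0 q hq).ne']
        linarith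
      have b2 : ∏ q ∈ S, 1 / (q : ℝ) = 1 / ((∏ q ∈ S, q : ℕ) : ℝ) := by
        rw [prod_div_distrib, prod_const_one, Nat.cast_prod]
      have b3 : (Ioc (2 ^ m) (2 * 2 ^ m)).filter (fun n => ∀ q ∈ S, q ∣ n) =
          (Ioc (2 ^ m) (2 * 2 ^ m)).filter (fun n => ∏ q ∈ S, q ∣ n) :=
        filter_congr fun n _ => ⟨fun h => prod_primes_dvd n (fun q hq => (hP q (hS' hq)).prime) h,
          fun h q hq => (dvd_prod_of_mem _ hq).trans h⟩
      generalize (∏ q ∈ S, q : ℕ) = r at hm hm' b1 b2 b3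
      have h := svb_rem ψ _ hw1 (2 ^ m) r hm
        (hB _ ((Nat.div_le_self _ _).trans (Nat.pow_le_pow_right two_pos m.le_succ)))
        (hB _ ((Nat.div_le_self _ _).trans (by omega)))
      rw [b2, mul_one_div, mul_left_comm]
      refine mul_le_mul_of_nonneg_left ?_ (by positivity)
      refine le_trans (le_of_eq ?_) (h.trans ?_)
      · congr 2
        exact sum_congr (by ext n; simpa using (Finset.ext_iff.1 b3 n)) fun _ _ => rfl
      · rw [mul_assoc, mul_one_div]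
        exact le_mul_of_one_le_right (by positivity) ((one_le_div hm').2 b1))
  have hpr := svb_prod (H91.Pw 1 z) fun q hq => (hP q hq).two_le
  rw [← hVd] at hpr key
  generalize (∑ S ∈ (H91.Pw 1 z).powerset, 64 ^ #S * ∏ q ∈ S, 1 / (q : ℝ)) = T at hpr key
  have t0 : (1 + 2 * B) * z ^ s * z ^ 67 ≤ 2 ^ m := by
    rw [mul_assoc, ← pow_add, hz, ← pow_mul, mul_comm w]
    exact hm
  have t1 : 4 ≤ z ^ 67 * V ^ 65 := by
    have a : 1 ≤ z * V := by rwa [div_le_iff₀' (by linarith)] at hV1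
    have b := one_le_pow₀ a (n := 65)
    have e : z ^ 67 * V ^ 65 = z ^ 2 * (z * V) ^ 65 := by ring
    rw [e]
    nlinarith
  have t2 : 4 * ((1 + 2 * B) * z ^ s) ≤ 2 ^ m * V ^ 65 := by
    have a := mul_le_mul_of_nonneg_right t0 (pow_nonneg V0.le 65)
    have b := mul_le_mul_of_nonneg_left t1 (show 0 ≤ (1 + 2 * B) * z ^ s by positivity)
    linarith
  have t3 : 4 * ((1 + 2 * B) * z ^ s * T) ≤ 2 ^ m * V := by
    by_cases hT : 0 ≤ T
    · have a := mul_le_mul_of_nonneg_right t2 hT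
      have b := mul_le_mul_of_nonneg_left hpr (show 0 ≤ 2 ^ m * V by positivity)
      have e : 2 ^ m * V ^ 65 * T = 2 ^ m * V * (T * V ^ 64) := by ring
      linarith
    · have a : (1 + 2 * B) * z ^ s * T ≤ 0 :=
        mul_nonpos_of_nonneg_of_nonpos (by positivity) (not_le.1 hT).le
      have b : 0 ≤ 2 ^ m * V := by positivity
      linarith
  have t6 : 0 ≤ 2 ^ m * V := by positivity
  refine le_trans ?_ (key.1.trans (le_of_eq (sum_congr ?_ fun _ _ => rfl)))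
  · rw [hVZ]
    push_cast
    linarith
  · ext d
    simp only [mem_filter, hPe, mem_range, G94.Rough, pow_succ']
    refine and_congr_right fun _ => ⟨fun h q hq hd => not_lt.1 fun c => h q ⟨c, hq⟩ hd,
      fun h q hq hd => absurd (h q hq.2 hd) (not_le.2 hq.1)⟩

end Pool.Agent.G42
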