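import Pool.Agent.MP_b5e119_nt.G42A.EDefs
import Pool.Agent.MP_b5e119_nt.G6X.REP

/-! Row TOPA: one exceptional primitive character for all moduli of a range. -/

namespace Pool.Agent.G42

open Finset Pool.Agent.G60 DirichletCharacter
open Pool.Agent.G27 (re EX re_coe)

theorem topa_inv (hI : ∀ i : Sg, @INVA_s i) (hM : MON_s) (η : ℝ) (hη : 0 < η) :
    ∃ c : ℝ, 0 < c ∧ ∃ N₀ : ℕ, ∀ M N : ℕ, N₀ ≤ M → 0 < N → M ∣ N →
      ∀ e e' : ℤ, (e = 1 ∨ e = -1) → (e' = 1 ∨ e' = -1) → (cnt N e e' : ℝ) < c * M →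
        ∃ (L : ℕ) (χ : Ch L) (σ : ℤ), (0 < L ∧ L ∣ M ∧ M ^ 200 ≤ L ^ 201 ∧ χ ^ 2 = 1 ∧ χ ≠ 1 ∧
          (σ = 1 ∨ σ = -1) ∧ (EX χ σ : ℝ) ≤ η * L.totient) ∧ χ (-1) = -(e * e' : ℤ) := by
  have key : ∀ i : Sg, ∃ c : ℝ, 0 < c ∧ ∃ N₀ : ℕ, ∀ M : ℕ, N₀ ≤ M →
      ∀ e : ℤ, (e = 1 ∨ e = -1) → (cnt M e (-i.s * e) : ℝ) ≤ c * M →
        ∃ (L : ℕ) (χ : Ch L) (σ : ℤ), (0 < L ∧ L ∣ M ∧ M ^ 200 ≤ L ^ 201 ∧ χ ^ 2 = 1 ∧ χ ≠ 1 ∧
          (σ = 1 ∨ σ = -1) ∧ (EX χ σ : ℝ) ≤ η * L.totient) ∧ χ (-1) = (i.s : ℤ) := fun i => by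
    obtain ⟨c, hc, N₀, h⟩ := hI i η hη
    refine ⟨c, hc, N₀, fun M h0 e he hq => ?_⟩
    obtain ⟨L, hL, a0, a1, χ, σ, a2, a3, a4, a5, a6⟩ := h M h0 e he hq
    refine ⟨L, χ, σ, ⟨NeZero.pos L, a0, a1, a2, a3, a4, a5⟩, ?_⟩
    rw [← a6, re_coe a2, Nat.cast_sub (NeZero.one_le (n := L)), ZMod.natCast_self, zero_sub,
      Nat.cast_one]
  obtain ⟨c, hc, N₀, h⟩ := key ⟨1, Or.inl rfl⟩
  obtain ⟨c', hc', N₁, h'⟩ := key ⟨-1, Or.inr rfl⟩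
  refine ⟨min c c', lt_min hc hc', N₀ + N₁, ?_⟩
  rintro M N h0 h4 ⟨d, rfl⟩ e e' he he' hq
  have hl := lam_cases d
  have hm := hM M d (lam d * e) (lam d * e') (Nat.pos_of_mul_pos_left h4)
  have hs : ∀ x : ℤ, lam d * (lam d * x) = x := fun x => by
    rcases hl with a | a <;> rw [a] <;> ring
  rw [hs, hs] at hm
  have hq' : (cnt M (lam d * e) (lam d * e') : ℝ) ≤ min c c' * M :=
    le_trans (by exact_mod_cast hm) hq.le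
  have p1 := hq'.trans (mul_le_mul_of_nonneg_right (min_le_left c c') (Nat.cast_nonneg M))
  have p2 := hq'.trans (mul_le_mul_of_nonneg_right (min_le_right c c') (Nat.cast_nonneg M))
  rcases hl with a | a <;> rw [a] at p1 p2 <;> rcases he with rfl | rfl <;>
    rcases he' with rfl | rfl
  · simpa using h' M (by omega) 1 (Or.inl rfl) (by simpa using p2)
  · simpa using h M (by omega) 1 (Or.inl rfl) (by simpa using p1)
  · simpa using h M (by omega) (-1) (Or.inr rfl) (by simpa using p1)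
  · simpa using h' M (by omega) (-1) (Or.inr rfl) (by simpa using p2)
  · simpa using h' M (by omega) (-1) (Or.inr rfl) (by simpa using p2)
  · simpa using h M (by omega) (-1) (Or.inr rfl) (by simpa using p1)
  · simpa using h M (by omega) 1 (Or.inl rfl) (by simpa using p1)
  · simpa using h' M (by omega) 1 (Or.inl rfl) (by simpa using p2)

theorem topa_lev {L L' : ℕ} [NeZero (L * L')] {χ : Ch L} {χ' : Ch L'}
    (h : ∀ n : ℕ, n.Coprime (L * L') → χ (n : ZMod L) = χ' (n : ZMod L')) :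
    changeLevel (dvd_mul_right L L') χ = changeLevel (dvd_mul_left L' L) χ' := by
  refine MulChar.ext fun a => ?_
  have hn := ZMod.val_coe_unit_coprime a
  rw [← ZMod.natCast_zmod_val (a : ZMod (L * L')), G6X.rep_lev _ _ hn, G6X.rep_lev _ _ hn]
  exact h _ hn

theorem topa_sq {X M L : ℕ} (h0 : 0 < L) (h1 : X ≤ M) (h2 : M ^ 200 ≤ L ^ 201) : X ≤ L ^ 2 := by
  refine (Nat.pow_le_pow_iff_left (n := 200) (by norm_num)).1
    ((Nat.pow_le_pow_left h1 200).trans (h2.trans ?_))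
  exact (Nat.pow_le_pow_right h0 (by norm_num)).trans (pow_mul L 2 200).le

/-- Either no modulus of the range is deficient, or one character governs all of them. -/
theorem topa_core (hI : ∀ i : Sg, @INVA_s i) (hR : REPA_s) (hM : MON_s) (η : ℝ) (hη : 0 < η) :
    ∃ c : ℝ, 0 < c ∧ ∀ K : ℕ, ∃ X₀ : ℕ, ∀ X : ℕ, X₀ ≤ X →
      (∀ M N : ℕ, X ≤ M → M ≤ X ^ 2 → 0 < N → M ∣ N → ∀ e e' : ℤ, (e = 1 ∨ e = -1) →
        (e' = 1 ∨ e' = -1) → ¬(cnt N e e' : ℝ) < c * M) ∨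
      ∃ (L : ℕ) (_ : NeZero L) (χ : Ch L) (σ : ℤ), K ≤ L ∧ X ^ 200 ≤ L ^ 201 ∧ X ≤ L ^ 2 ∧
        L ≤ X ^ 2 ∧ χ ^ 2 = 1 ∧ χ ≠ 1 ∧ (σ = 1 ∨ σ = -1) ∧ (EX χ σ : ℝ) ≤ η * L.totient ∧
        ∀ M N : ℕ, X ≤ M → M ≤ X ^ 2 → 0 < N → M ∣ N → ∀ e e' : ℤ, (e = 1 ∨ e = -1) →
          (e' = 1 ∨ e' = -1) → (cnt N e e' : ℝ) < c * M →
            χ.conductor ∣ M ∧ χ.primitiveCharacter (-1) = -(e * e' : ℤ) := by
  obtain ⟨ε, hε, N₁, hR⟩ := hR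
  obtain ⟨c, hc, N₂, hI⟩ := topa_inv hI hM (min ε η) (lt_min hε hη)
  refine ⟨c, hc, fun K => ⟨(N₁ + K) ^ 2 + N₂ + 1, fun X hX => ?_⟩⟩
  have m1 : ∀ L : ℕ, min ε η * L.totient ≤ ε * L.totient := fun L =>
    mul_le_mul_of_nonneg_right (min_le_left ε η) (Nat.cast_nonneg _)
  have m2 : ∀ L : ℕ, min ε η * L.totient ≤ η * L.totient := fun L =>
    mul_le_mul_of_nonneg_right (min_le_right ε η) (Nat.cast_nonneg _)
  have big : ∀ L : ℕ, X ≤ L ^ 2 → N₁ + K ≤ L := fun L h =>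
    (Nat.pow_le_pow_iff_left (n := 2) (by norm_num)).1 (by omega)
  have cmp : ∀ L L' : ℕ, X ^ 200 ≤ L ^ 201 → L' ≤ X ^ 2 → L' ^ 100 ≤ L ^ 201 := fun L L' h h' => by
    refine (Nat.pow_le_pow_left h' 100).trans ?_
    rwa [← pow_mul]
  rw [or_iff_not_imp_left]
  intro hex
  push Not at hex
  obtain ⟨M₀, N₀, z1, z2, z3, z4, e₀, e₀', z5, z6, z7⟩ := hex
  obtain ⟨L₀, χ₀, σ₀, ⟨a0, a1, a2, a3, a4, a5, a6⟩, -⟩ :=
    hI M₀ N₀ (by omega) z3 z4 e₀ e₀' z5 z6 z7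
  have a7 := topa_sq a0 z1 a2
  have a8 : L₀ ≤ X ^ 2 := (Nat.le_of_dvd (by omega) a1).trans z2
  have a9 : X ^ 200 ≤ L₀ ^ 201 := (Nat.pow_le_pow_left z1 200).trans a2
  have : NeZero L₀ := ⟨a0.ne'⟩
  refine ⟨L₀, this, χ₀, σ₀, le_of_add_le_right (big _ a7), a9, a7, a8, a3, a4, a5,
    a6.trans (m2 L₀), fun M N h1 h2 h5 h6 e e' he he' h => ?_⟩
  obtain ⟨L, χ, σ, ⟨b0, b1, b2, b3, -, b5, b6⟩, b⟩ := hI M N (by omega) h5 h6 e e' he he' h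
  have b7 := topa_sq b0 h1 b2
  have b8 : L ≤ X ^ 2 := (Nat.le_of_dvd (by omega) b1).trans h2
  have b9 : X ^ 200 ≤ L ^ 201 := (Nat.pow_le_pow_left h1 200).trans b2
  have : NeZero L := ⟨b0.ne'⟩
  have k : χ₀.conductor ∣ L ∧ χ₀.primitiveCharacter (-1) = χ (-1) := by
    rcases le_total L₀ L with hle | hle
    · exact G6X.page_eq (topa_lev (hR L₀ L (le_of_add_le_left (big _ a7)) hle (cmp _ _ a9 b8)
        χ₀ χ σ₀ σ a3 b3 a5 b5 (a6.trans (m1 L₀)) (b6.trans (m1 L))))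
    · exact G6X.page_eq (topa_lev (hR L L₀ (le_of_add_le_left (big _ b7)) hle (cmp _ _ b9 a8)
        χ χ₀ σ σ₀ b3 a3 b5 a5 (b6.trans (m1 L)) (a6.trans (m1 L₀)))).symm
  exact ⟨k.1.trans b1, k.2.trans b⟩

theorem topa_log {X L : ℕ} (A : ℕ) (h0 : 0 < X) (h8 : 8 ≤ L) (h : X ≤ L ^ 2) :
    Real.log X ^ A ≤ Real.log L ^ (2 * A) := by
  rw [pow_mul]
  refine pow_le_pow_left₀ (Real.log_natCast_nonneg X) ?_ A
  have a : Real.log X ≤ 2 * Real.log L := by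
    have := Real.log_le_log (Nat.cast_pos.2 h0) (Nat.cast_le.2 h : (X : ℝ) ≤ (L ^ 2 : ℕ))
    rwa [Nat.cast_pow, Real.log_pow, Nat.cast_ofNat] at this
  have b : Real.log ((2 : ℝ) ^ 3) ≤ Real.log L :=
    Real.log_le_log (by norm_num) (by exact_mod_cast h8)
  rw [Real.log_pow] at b
  have c := Real.log_two_gt_d9
  push_cast at b
  nlinarith

theorem topa_row (hI : ∀ i : Sg, @INVA_s i) (hR : REPA_s) (hL : LRGA_s) (hM : MON_s) :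
    TOPA_s := by
  obtain ⟨η, hη, hL⟩ := hL
  obtain ⟨c, hc, h⟩ := topa_core hI hR hM η hη
  refine ⟨c, hc, fun A => ?_⟩
  obtain ⟨N₀, hL⟩ := hL (2 * A)
  obtain ⟨X₀, h⟩ := h (N₀ + 8)
  refine ⟨X₀ + 1, fun X hX => ?_⟩
  rcases h X (by omega) with h | ⟨L, _, χ, σ, a1, -, a2, -, a4, a5, a6, a7, h⟩
  · obtain ⟨χ₀, a4, a5⟩ := G6X.page_ex
    obtain ⟨-, p2, p3⟩ := G6X.page_prim a4 a5
    exact ⟨_, χ₀.primitiveCharacter, p2, p3, fun M N h1 h2 h5 h6 e e' he he' k =>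
      absurd k (h M N h1 h2 h5 h6 e e' he he')⟩
  · obtain ⟨-, p2, p3⟩ := G6X.page_prim a4 a5
    exact ⟨_, χ.primitiveCharacter, p2, p3, fun M N h1 h2 h5 h6 e e' he he' k =>
      ⟨(topa_log A (by omega) (by omega) a2).trans (hL L (by omega) χ σ a4 a5 a6 a7).le,
        h M N h1 h2 h5 h6 e e' he he' k⟩⟩

end Pool.Agent.G42
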