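import Pool.Agent.MP_b5e119_nt.G42A.ZDefs
import Pool.Agent.MP_b5e119_nt.G42A.TOPA

/-! Row TOPB: the exceptional character has a real zero close to `1`. -/

namespace Pool.Agent.G42

open Finset Pool.Agent.G60 DirichletCharacter
open Pool.Agent.G27 (re EX)

theorem topb_zero {L : ℕ} [NeZero L] (χ : Ch L) [NeZero χ.conductor] {σ : ℝ} (h0 : 0 < σ)
    (h1 : σ < 1) (h : LFunction χ σ = 0) : LFunction χ.primitiveCharacter σ = 0 := by
  have e := LFunction_changeLevel χ.conductor_dvd_level χ.primitiveCharacter (s := (σ : ℂ))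
    (Or.inr (by exact_mod_cast h1.ne))
  rw [changeLevel_primitiveCharacter, h] at e
  refine (mul_eq_zero.1 e.symm).resolve_right (prod_ne_zero_iff.2 fun p hp k => ?_)
  have hp := Nat.prime_of_mem_primeFactors hp
  have a : ‖χ.primitiveCharacter (p : ZMod χ.conductor) * (p : ℂ) ^ (-(σ : ℂ))‖ < 1 := by
    rw [norm_mul, Complex.norm_natCast_cpow_of_pos hp.pos]
    refine mul_lt_one_of_nonneg_of_lt_one_right (norm_le_one _ _) (by positivity) ?_
    exact Real.rpow_lt_one_of_one_lt_of_neg (Nat.one_lt_cast.2 hp.one_lt) (by simpa using h0)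
  rw [← sub_eq_zero.1 k, norm_one] at a
  exact lt_irrefl _ a

theorem topb_row (hI : ∀ i : Sg, @INVA_s i) (hR : REPA_s) (hL : LRGA_s) (hZ : ZNDA_s)
    (hM : MON_s) : TOPB_s := by
  intro η hη
  obtain ⟨ε, hε, hL⟩ := hL
  obtain ⟨δ, hδ, N₁, hZ⟩ := hZ (η / 2) (half_pos hη)
  obtain ⟨c, hc, h⟩ := topa_core hI hR hM (min ε δ) (lt_min hε hδ)
  refine ⟨c, hc, fun A => ?_⟩
  obtain ⟨N₀, hL⟩ := hL (2 * A)
  obtain ⟨X₀, h⟩ := h (N₀ + N₁ + ⌈Real.exp η⌉₊ + 8)
  refine ⟨X₀ + 2, fun X hX => ?_⟩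
  rcases h X (by omega) with h | ⟨L, _, χ, σ, a1, -, a2, -, a4, a5, a6, a7, h⟩
  · obtain ⟨χ₀, a4, a5⟩ := G6X.page_ex
    obtain ⟨p1, p2, p3⟩ := G6X.page_prim a4 a5
    exact ⟨_, ⟨by omega⟩, χ₀.primitiveCharacter, p2, p3, fun M N h1 h2 h5 h6 e e' he he' k =>
      absurd k (h M N h1 h2 h5 h6 e e' he he')⟩
  · obtain ⟨p1, p2, p3⟩ := G6X.page_prim a4 a5
    have i : NeZero χ.conductor := ⟨by omega⟩
    have q1 := hL L (by omega) χ σ a4 a5 a6
      (a7.trans (mul_le_mul_of_nonneg_right (min_le_left ε δ) (Nat.cast_nonneg _)))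
    obtain ⟨β, b1, b2, b3⟩ := hZ L (by omega) χ σ a4 a5 a6
      (a7.trans (mul_le_mul_of_nonneg_right (min_le_right ε δ) (Nat.cast_nonneg _)))
    have l1 : Real.log X ≤ 2 * Real.log L := by
      have := Real.log_le_log (Nat.cast_pos.2 (by omega))
        (Nat.cast_le.2 a2 : (X : ℝ) ≤ (L ^ 2 : ℕ))
      rwa [Nat.cast_pow, Real.log_pow, Nat.cast_ofNat] at this
    have l2 : 0 < Real.log X := Real.log_pos (Nat.one_lt_cast.2 (by omega))
    have l3 : η ≤ Real.log L := by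
      rw [Real.le_log_iff_exp_le (Nat.cast_pos.2 (by omega))]
      exact (Nat.le_ceil _).trans (Nat.cast_le.2 (by omega))
    have l4 : η / 2 / Real.log L ≤ η / Real.log X := by
      rw [div_div]
      exact div_le_div_of_nonneg_left hη.le l2 l1
    have l5 : η / 2 / Real.log L < 1 := by
      rw [div_lt_one (by linarith)]
      linarith
    refine ⟨_, i, χ.primitiveCharacter, p2, p3, fun M N h1 h2 h5 h6 e e' he he' k => ?_⟩
    obtain ⟨k1, k2⟩ := h M N h1 h2 h5 h6 e e' he he' k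
    exact ⟨(topa_log A (by omega) (by omega) a2).trans q1.le, k1, k2, β, by linarith, b2,
      topb_zero χ (by linarith) b2 b3⟩

end Pool.Agent.G42
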