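import Pool.Agent.MP_b5e119_nt.G42A.EDefs

namespace Pool.Agent.G42

open Finset Filter Topology Pool.Agent.G60
open Pool.Agent.G27 (cu nu WW UN)
open Pool.Agent.G94 (Rough)

theorem typa_ff (p : ℕ) [NeZero p] {u : ℕ} (h0 : 0 < u) (h : u < p) :
    ff p (u : ZMod p) = lam u := by
  rw [ff, if_neg, ZMod.val_cast_of_lt h]
  rw [ZMod.natCast_eq_zero_iff]
  exact Nat.not_dvd_of_pos_of_lt h0 h

theorem typa_cnt {ι : Type} (p : ℕ) [NeZero p] (w : ZMod p → ℝ) (hw : ∀ a, 0 ≤ w a)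
    (P : Finset ι) (D Y : ι → ℕ) (C : ℕ) (hP : ∀ i ∈ P, 0 < D i ∧ D i * Y i < p)
    (hC : ∀ u, 0 < u → u < p → #{i ∈ P | D i ∣ u} ≤ C) :
    ∑ i ∈ P, ∑ n ∈ Icc 1 (Y i), w ((D i * n : ℕ) : ZMod p) ≤ C * ∑ a, w a := by
  have h1 : ∀ i ∈ P, ∑ n ∈ Icc 1 (Y i), w ((D i * n : ℕ) : ZMod p) ≤
      ∑ u ∈ Ico 1 p, if D i ∣ u then w (u : ZMod p) else 0 := fun i hi => by
    obtain ⟨a, b⟩ := hP i hi
    rw [← sum_filter, ← sum_image (s := Icc 1 (Y i)) (g := fun n => D i * n)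
      (f := fun u : ℕ => w (u : ZMod p)) fun x _ y _ e => Nat.eq_of_mul_eq_mul_left a e]
    refine sum_le_sum_of_subset_of_nonneg (fun u hu => ?_) fun u _ _ => hw _
    obtain ⟨n, hn, rfl⟩ := mem_image.1 hu
    rw [mem_Icc] at hn
    exact mem_filter.2 ⟨mem_Ico.2 ⟨Nat.mul_pos a hn.1,
      (Nat.mul_le_mul_left _ hn.2).trans_lt b⟩, dvd_mul_right _ n⟩
  have h2 : ∑ u ∈ Ico 1 p, w (u : ZMod p) ≤ ∑ a, w a := by
    rw [← sum_image (s := Ico 1 p) (g := fun u : ℕ => (u : ZMod p)) (f := w) fun x hx y hy e => by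
      have := congrArg ZMod.val e
      rwa [ZMod.val_cast_of_lt (mem_Ico.1 hx).2, ZMod.val_cast_of_lt (mem_Ico.1 hy).2] at this]
    exact sum_le_univ_sum_of_nonneg hw
  refine (sum_le_sum h1).trans ?_
  rw [sum_comm]
  refine le_trans ?_ (mul_le_mul_of_nonneg_left h2 (Nat.cast_nonneg _))
  rw [mul_sum]
  refine sum_le_sum fun u hu => ?_
  rw [mem_Ico] at hu
  rw [← sum_filter, sum_const, nsmul_eq_mul]
  exact mul_le_mul_of_nonneg_right (Nat.cast_le.2 (hC u hu.1 hu.2)) (hw _)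

theorem typa_norm (n : ℕ) : ‖(lam n : ℂ)‖ = 1 := by
  rcases lam_cases n with e | e <;> simp [e]

open Classical in
theorem typa_pair (hP : G27.PARG_s) (hL : G27.LOCG_s) (N : ℕ) [NeZero N] (Λ : Finset (Ch N))
    (Y : ℕ) (h2 : 2 * #Λ * WW N ≤ UN N Y) (G : ZMod N → ℂ)
    (hG : ∀ a, G a = ∑ χ ∈ Λᶜ, cu N (fun a => (ff N a : ℂ)) χ * χ a) {q q' : ℕ} (hq : 0 < q)
    (hq' : 0 < q') (d : q.Coprime N) (d' : q'.Coprime N) (k : q * Y < N) (k' : q' * Y < N) :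
    (UN N Y : ℝ) / 2 * ∑ χ ∈ Λ, nu N χ * ‖hh χ q - hh χ q'‖ ^ 2 ≤
      2 * ∑ n ∈ Icc 1 Y, ‖G ((q * n : ℕ) : ZMod N)‖ ^ 2 +
        2 * ∑ n ∈ Icc 1 Y, ‖G ((q' * n : ℕ) : ZMod N)‖ ^ 2 := by
  have a := hL N Λ (fun χ => cu N (fun a => (ff N a : ℂ)) χ * (hh χ q - hh χ q')) Y h2
  simp only [norm_mul, mul_pow] at a
  refine a.trans ?_
  rw [mul_sum, mul_sum, ← sum_add_distrib]
  refine sum_le_sum fun n hn => ?_
  rw [mem_Icc] at hn
  by_cases hc : n.Coprime N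
  swap
  · rw [sum_eq_zero fun χ _ => by
      rw [MulChar.map_nonunit χ (mt (ZMod.isUnit_iff_coprime n N).1 hc), mul_zero],
      norm_zero, zero_pow two_ne_zero]
    positivity
  have e : ∀ r : ℕ, 0 < r → r.Coprime N → r * Y < N →
      (lam r : ℂ) * ∑ χ ∈ Λ, cu N (fun a => (ff N a : ℂ)) χ * χ ((r * n : ℕ) : ZMod N) +
        (lam r : ℂ) * G ((r * n : ℕ) : ZMod N) = (lam n : ℂ) := fun r hr dr kr => by
    rw [← mul_add, hG, sum_add_sum_compl, ← (hP N).1 (fun a => (ff N a : ℂ)) _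
      ((ZMod.isUnit_iff_coprime _ N).2 (Nat.Coprime.mul_left dr hc)),
      typa_ff N (Nat.mul_pos hr hn.1) ((Nat.mul_le_mul_left r hn.2).trans_lt kr),
      lam_mul hr.ne' (by omega)]
    rcases lam_cases r with e | e <;> simp [e]
  have e2 : ∑ χ ∈ Λ, cu N (fun a => (ff N a : ℂ)) χ * (hh χ q - hh χ q') * χ (n : ZMod N) =
      (lam q' : ℂ) * G ((q' * n : ℕ) : ZMod N) - (lam q : ℂ) * G ((q * n : ℕ) : ZMod N) := by
    have := (e q hq d k).trans (e q' hq' d' k').symm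
    rw [show (lam q' : ℂ) * G ((q' * n : ℕ) : ZMod N) - (lam q : ℂ) * G ((q * n : ℕ) : ZMod N) =
      (lam q : ℂ) * ∑ χ ∈ Λ, cu N (fun a => (ff N a : ℂ)) χ * χ ((q * n : ℕ) : ZMod N) -
        (lam q' : ℂ) * ∑ χ ∈ Λ, cu N (fun a => (ff N a : ℂ)) χ * χ ((q' * n : ℕ) : ZMod N) by
          linear_combination -this, mul_sum, mul_sum, ← sum_sub_distrib]
    refine sum_congr rfl fun χ _ => ?_
    rw [Nat.cast_mul, Nat.cast_mul, map_mul, map_mul, hh, hh]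
    ring
  rw [e2]
  have := norm_sub_le ((lam q' : ℂ) * G ((q' * n : ℕ) : ZMod N))
    ((lam q : ℂ) * G ((q * n : ℕ) : ZMod N))
  rw [norm_mul, norm_mul, typa_norm, typa_norm, one_mul, one_mul] at this
  have := pow_le_pow_left₀ (norm_nonneg _) this 2
  nlinarith [sq_nonneg (‖G ((q' * n : ℕ) : ZMod N)‖ - ‖G ((q * n : ℕ) : ZMod N)‖)]

theorem typa_W (N : ℕ) (h : 1 < N) : 2 * √N + 1 ≤ WW N ∧ 1 ≤ WW N := by
  have a : (1 : ℝ) ≤ N := by exact_mod_cast h.le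
  have b : (1 : ℝ) ≤ √N := Real.one_le_sqrt.2 a
  have c := Real.log_nonneg a
  have d := mul_nonneg (by linarith : (0 : ℝ) ≤ √N) c
  unfold WW
  constructor <;> nlinarith

theorem typa_U (hT : G27.TAU_s) (hU : G27.UNI_s) (N j : ℕ) (h : 1 < N) :
    (N.totient : ℝ) ≤ 2 ^ j * (UN N ((N - 1) / 2 ^ j) + WW N) := by
  obtain ⟨Y, hY⟩ : ∃ Y, Y = (N - 1) / 2 ^ j := ⟨_, rfl⟩
  rw [← hY]
  have x2 : N - 1 < 2 ^ j * (Y + 1) := hY ▸ Nat.lt_mul_div_succ _ (by positivity)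
  have x3 : (N : ℝ) ≤ 2 ^ j * (Y + 1) := by
    have : N ≤ 2 ^ j * (Y + 1) := by omega
    exact_mod_cast this
  have n0 : (0 : ℝ) < N := by exact_mod_cast (by omega : 0 < N)
  have u := (hU N (by omega)).2 Y
  have t := hT.1 N
  have w := (typa_W N h).1
  have r0 : (0 : ℝ) ≤ N.totient / N := by positivity
  have r1 : (N.totient : ℝ) / N ≤ 1 := (div_le_one n0).2 (Nat.cast_le.2 N.totient_le)
  have e : (N.totient : ℝ) = N * (N.totient / N) := by field_simp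
  rw [mul_div_assoc] at u
  generalize (N.totient : ℝ) / N = ρ at *
  have t0 : (0 : ℝ) < 2 ^ j := by positivity
  rw [e]
  refine (mul_le_mul_of_nonneg_right x3 r0).trans ?_
  rw [mul_assoc]
  refine mul_le_mul_of_nonneg_left ?_ t0.le
  nlinarith

open Classical in
theorem typa_kd {N w i d : ℕ} (h : 0 < N) (hd : d ∈ WN N w i) :
    0 < d ∧ d * ((N - 1) / 2 ^ (i + 3)) < N := by
  obtain ⟨a, b⟩ := mem_Ioc.1 (mem_filter.1 hd).1
  exact ⟨lt_of_le_of_lt (Nat.zero_le _) a, ((Nat.mul_le_mul_right _ b).trans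
    (Nat.mul_div_le _ _)).trans_lt (Nat.sub_lt h one_pos)⟩

open Classical in
theorem typa_lev (hP : G27.PARG_s) (hL : G27.LOCG_s) (hU : G27.UNI_s) (hT : G27.TAU_s) (N : ℕ)
    [NeZero N] (Λ : Finset (Ch N)) (G : ZMod N → ℂ)
    (hG : ∀ a, G a = ∑ χ ∈ Λᶜ, cu N (fun a => (ff N a : ℂ)) χ * χ a) (w i : ℕ) (x : ℝ)
    (hN : 1 < N) (hx : x ≤ N.totient) (h : (2 : ℝ) ^ (i + 4) * (2 * #Λ + 1) * WW N ≤ x)
    (ne : (WN N w i).Nonempty) : ∃ d₀ ∈ WN N w i,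
      x * ∑ χ ∈ Λ, nu N χ * ((∑ d ∈ WN N w i, ‖hh χ d - hh χ d₀‖ ^ 2) / 2 ^ i) ≤
        256 * ∑ d ∈ WN N w i, ∑ n ∈ Icc 1 ((N - 1) / 2 ^ (i + 3)),
          ‖G ((d * n : ℕ) : ZMod N)‖ ^ 2 := by
  have u0 := hx.trans (typa_U hT hU N (i + 3) hN)
  have kd := fun d => typa_kd (N := N) (w := w) (i := i) (d := d) (by omega)
  generalize (N - 1) / 2 ^ (i + 3) = Y at *
  have w1 := (typa_W N hN).2
  have s0 : (0 : ℝ) ≤ #Λ * WW N := by positivity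
  have t0 : (0 : ℝ) < 2 ^ (i + 3) := by positivity
  have x4 : 2 * (2 * #Λ + 1) * WW N ≤ UN N Y + WW N := by
    refine le_of_mul_le_mul_left (a := (2 : ℝ) ^ (i + 3)) (le_trans (le_of_eq ?_) (h.trans u0)) t0
    ring
  have x5 : WW N ≤ UN N Y := by nlinarith
  have x6 : 2 * #Λ * WW N ≤ UN N Y := by nlinarith
  obtain ⟨d₀, h₀, m₀⟩ := exists_min_image (WN N w i) (fun d =>
    ∑ n ∈ Icc 1 Y, ‖G ((d * n : ℕ) : ZMod N)‖ ^ 2) ne
  have c3 := card_nsmul_le_sum _ _ _ m₀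
  refine ⟨d₀, h₀, ?_⟩
  have m := sum_le_sum fun d (hd : d ∈ WN N w i) => typa_pair hP hL N Λ Y x6 G hG (kd d hd).1
    (kd d₀ h₀).1 (mem_filter.1 hd).2.2 (mem_filter.1 h₀).2.2 (kd d hd).2 (kd d₀ h₀).2
  simp only [sum_add_distrib, sum_const, nsmul_eq_mul, ← mul_sum] at m c3
  rw [sum_comm] at m
  simp only [← mul_sum] at m
  simp only [← mul_div_assoc, ← sum_div]
  have a0 : 0 ≤ ∑ χ ∈ Λ, nu N χ * ∑ d ∈ WN N w i, ‖hh χ d - hh χ d₀‖ ^ 2 :=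
    sum_nonneg fun χ _ => mul_nonneg (sq_nonneg _) (by positivity)
  have s1 : 0 ≤ ∑ d ∈ WN N w i, ∑ n ∈ Icc 1 Y, ‖G ((d * n : ℕ) : ZMod N)‖ ^ 2 := by positivity
  have j0 : (0 : ℝ) < 2 ^ i := by positivity
  have pp : x ≤ 16 * 2 ^ i * UN N Y := by
    rw [pow_add] at u0
    nlinarith [mul_le_mul_of_nonneg_left x5 j0.le]
  rw [div_le_iff₀ j0]
  have w2 := mul_le_mul_of_nonneg_right pp a0
  have w3 := mul_le_mul_of_nonneg_left (m.trans (show _ ≤ 4 * ∑ d ∈ WN N w i,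
    ∑ n ∈ Icc 1 Y, ‖G ((d * n : ℕ) : ZMod N)‖ ^ 2 by linarith)) j0.le
  nlinarith [mul_nonneg s1 j0.le]

theorem typa_num (k w i N : ℕ) (ε u : ℝ) (hw : 1 ≤ w) (h : 192 * k * (w + 1) ≤ ε * 2 ^ w)
    (hk : 1 ≤ k) (hl : Nat.log 2 N + 1 ≤ k * (w + 1)) (hi : 2 * (i + 2 * w + 1) ≤ Nat.log 2 N)
    (hu : u ≤ (N : ℝ) ^ (1 / (2 * (k : ℝ)))) :
    N < (2 ^ w) ^ (2 * k) ∧ (2 : ℝ) ^ (i + 4) * (2 * u + 1) * WW N ≤ ε * N := by
  have n1 : N < 2 ^ (Nat.log 2 N + 1) := Nat.lt_pow_succ_log_self one_lt_two N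
  have n0 : N ≠ 0 := by
    rintro rfl
    simp at hi
  have n2 : N < (2 ^ w) ^ (2 * k) := by
    rw [← pow_mul]
    exact n1.trans_le (Nat.pow_le_pow_right two_pos (by nlinarith))
  refine ⟨n2, ?_⟩
  have p0 : (0 : ℝ) < N := Nat.cast_pos.2 (Nat.pos_of_ne_zero n0)
  have a : u ≤ 2 ^ w := by
    refine hu.trans ((Real.rpow_le_rpow p0.le (z := 1 / (2 * (k : ℝ)))
      (show (N : ℝ) ≤ (2 ^ w) ^ (2 * k) by exact_mod_cast n2.le) (by positivity)).trans_eq ?_)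
    rw [show 1 / (2 * (k : ℝ)) = ((2 * k : ℕ) : ℝ)⁻¹ by simp,
      Real.pow_rpow_inv_natCast (by positivity) (by omega)]
  have b : (2 : ℝ) ^ (i + 2 * w + 1) ≤ √N := by
    refine Real.le_sqrt_of_sq_le ?_
    rw [← pow_mul, mul_comm]
    exact_mod_cast (Nat.pow_le_pow_right two_pos hi).trans (Nat.pow_log_le_self 2 n0)
  have c : 1 + Real.log N ≤ 2 * k * (w + 1) := by
    have c1 := Real.log_le_log p0 (show (N : ℝ) ≤ 2 ^ (k * (w + 1)) by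
      exact_mod_cast n1.le.trans (Nat.pow_le_pow_right two_pos hl))
    have c2 : (1 : ℝ) ≤ (k * (w + 1) : ℕ) := by exact_mod_cast le_trans (by omega) hl
    have c3 := Real.log_two_lt_d9
    rw [Real.log_pow] at c1
    push_cast at c1 c2
    nlinarith
  have c0 : 0 ≤ 1 + Real.log N := add_nonneg one_pos.le (Real.log_natCast_nonneg N)
  have t1 : (1 : ℝ) ≤ 2 ^ w := one_le_pow₀ one_le_two
  have s0 := Real.sqrt_nonneg (N : ℝ)
  have e := Real.mul_self_sqrt p0.le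
  have j0 : (0 : ℝ) < 2 ^ i := by positivity
  rw [pow_succ, pow_add, two_mul w, pow_add] at b
  rw [WW, pow_add]
  generalize √(N : ℝ) = s at *
  generalize (2 : ℝ) ^ i = y at *
  generalize (2 : ℝ) ^ w = t at *
  generalize 1 + Real.log N = L at *
  have f0 : 0 ≤ ε := by
    by_contra n
    nlinarith [mul_le_mul_of_nonneg_left t1 (neg_nonneg.2 (not_le.1 n).le),
      (by positivity : (0 : ℝ) ≤ 192 * k * (w + 1))]
  have f1 : (2 * u + 1) * L ≤ 3 * t * L := mul_le_mul_of_nonneg_right (by linarith) c0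
  have f2 : 96 * (t * L) ≤ t * (ε * t) := by
    nlinarith [mul_le_mul_of_nonneg_left (show 96 * L ≤ ε * t by linarith) (by linarith : 0 ≤ t)]
  have f3 := mul_le_mul_of_nonneg_left (show 32 * ((2 * u + 1) * L) ≤ t * (ε * t) by linarith)
    (mul_nonneg j0.le s0)
  have f4 := mul_le_mul_of_nonneg_left b (mul_nonneg f0 s0)
  rw [← e]
  nlinarith

open Classical in
theorem typa_row (hPARG : G27.PARG_s) (hLOCG : G27.LOCG_s) (hUNI : G27.UNI_s) (hTAU : G27.TAU_s)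
    (hPHI : G27.PHI_s) (hRG : G94.RG_s) (hCNU : CNU_s) : TYPA_s := by
  intro k hk
  obtain ⟨C, C0, hC⟩ := hPHI
  obtain ⟨N₁, h₁⟩ := hCNU k (by omega)
  have k0 : (0 : ℝ) < k := Nat.cast_pos.2 (by omega)
  obtain ⟨w₀, h₀⟩ := eventually_atTop.1 ((tendsto_pow_const_div_const_pow_of_one_lt 2
    (one_lt_two (α := ℝ))).eventually_le_const (show (0 : ℝ) < 1 / (768 * C * k ^ 2) by positivity))
  refine ⟨max N₁ (2 ^ (k * (w₀ + 1))), fun N _ hN U hU => ?_⟩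
  have l1 := Nat.le_log_of_pow_le one_lt_two (le_of_max_le_right hN)
  have cn := (h₁ N (le_of_max_le_left hN)).1
  obtain ⟨w, hw⟩ : ∃ w, w = Nat.log 2 N / k := ⟨_, rfl⟩
  have w1 : w₀ + 1 ≤ w := hw ▸ (Nat.le_div_iff_mul_le (by omega)).2 (by rwa [mul_comm])
  have w2 : Nat.log 2 N + 1 ≤ k * (w + 1) := hw ▸ Nat.lt_mul_div_succ _ (by omega)
  have N1 : 1 < N := lt_of_lt_of_le (Nat.one_lt_two_pow (by positivity)) (le_of_max_le_right hN)
  have l8 : 16 ≤ Nat.log 2 N := le_trans (by nlinarith) l1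
  have n0 : (0 : ℝ) < N := Nat.cast_pos.2 (by omega)
  have f0 : (0 : ℝ) < N.totient := Nat.cast_pos.2 (Nat.totient_pos.2 (by omega))
  obtain ⟨ε, he⟩ : ∃ ε : ℝ, ε * N = N.totient := ⟨_, div_mul_cancel₀ _ n0.ne'⟩
  have hφ := he.le
  have hε : 0 < ε := (mul_pos_iff_of_pos_right n0).1 (he ▸ f0)
  have w3 : 192 * k * (w + 1) ≤ ε * 2 ^ w := by
    have a := h₀ w (by omega)
    have b : (1 : ℝ) ≤ w := by exact_mod_cast (by omega : 1 ≤ w)
    have c : (Nat.log 2 N : ℝ) ^ (1 / 4 : ℝ) ≤ k * (w + 1) :=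
      (Real.rpow_le_self_of_one_le (by exact_mod_cast (by omega : 1 ≤ Nat.log 2 N))
        (by norm_num)).trans (by exact_mod_cast (by omega : Nat.log 2 N ≤ k * (w + 1)))
    have d := (hC N N1).trans (mul_le_mul_of_nonneg_left c (by positivity))
    have e : 1 ≤ ε * (C * (k * (w + 1))) :=
      le_of_mul_le_mul_right (a := (N : ℝ)) (by rw [← he] at d; linarith) n0
    rw [div_le_div_iff₀ (by positivity) (by positivity), one_mul] at a
    have f := mul_le_mul_of_nonneg_left e (by positivity : (0 : ℝ) ≤ 192 * k * (w + 1))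
    have g : ((w : ℝ) + 1) ^ 2 ≤ 4 * w ^ 2 := by nlinarith
    have h := mul_le_mul_of_nonneg_left g (by positivity : (0 : ℝ) ≤ ε * (192 * C * k ^ 2))
    have i := mul_le_mul_of_nonneg_left a hε.le
    linarith
  unfold EN II
  rw [← hw] at cn ⊢
  obtain ⟨J, hJ⟩ : ∃ J, J = Ico (Nat.log 2 N / 4) (Nat.log 2 N / 2 - 2 * w) := ⟨_, rfl⟩
  rw [← hJ]
  have nm : ∀ i ∈ J, N < (2 ^ w) ^ (2 * k) ∧ (2 : ℝ) ^ (i + 4) * (2 * #U + 1) * WW N ≤ ε * N :=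
    fun i hi => typa_num k w i N ε _ (by omega) w3 (by omega) w2
      (by rw [hJ, mem_Ico] at hi; omega) hU
  obtain ⟨G, hG⟩ : ∃ G : ZMod N → ℂ,
      ∀ a, G a = ∑ χ ∈ Uᶜ, cu N (fun a => (ff N a : ℂ)) χ * χ a := ⟨_, fun _ => rfl⟩
  have g1 : ∑ a, ‖G a‖ ^ 2 = (N.totient : ℝ) * ∑ χ ∈ Uᶜ, nu N χ := by
    have := (hPARG N).2 fun χ => if χ ∈ Uᶜ then cu N (fun a => (ff N a : ℂ)) χ else 0
    simp only [ite_mul, zero_mul, sum_ite_mem, univ_inter, apply_ite (fun z : ℂ => ‖z‖ ^ 2),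
      norm_zero, zero_pow two_ne_zero] at this
    simp only [hG, nu]
    exact this
  choose! d hd m using fun i (hi : i ∈ J) => typa_lev hPARG hLOCG hUNI hTAU N U G hG w i _ N1 hφ
    (nm i hi).2 (by
      rw [hJ, mem_Ico] at hi
      have a := (cn i (by omega) (by omega)).2 (by omega)
      obtain ⟨x, hx⟩ := card_pos.1 (Nat.pos_of_mul_pos_left ((by positivity : 0 < 2 ^ i).trans_le a))
      obtain ⟨b, c⟩ := mem_filter.1 hx
      exact ⟨x, mem_filter.2 ⟨Ioc_subset_Ioc_right (Nat.pow_le_pow_right two_pos (by omega)) b, c⟩⟩)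
  refine ⟨d, hd, ?_⟩
  have c1 := typa_cnt N (fun a => ‖G a‖ ^ 2) (fun _ => sq_nonneg _) (J.sigma (WN N w))
    (fun i => i.2) (fun i => (N - 1) / 2 ^ (i.1 + 3)) (3 * 2 ^ (2 * k))
    (fun i hi => typa_kd (by omega) (mem_sigma.1 hi).2) fun u u0 u1 => ?_
  swap
  · rcases J.eq_empty_or_nonempty with e | ⟨i, hi⟩
    · rw [e, show (∅ : Finset ℕ).sigma (WN N w) = ∅ from rfl, filter_empty, card_empty]
      exact Nat.zero_le _
    refine le_trans (card_le_mul_card_image_of_maps_to (f := fun i => i.2) (fun i hi => ?_) 3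
      fun b _ => ?_) (Nat.mul_le_mul_left 3 (hRG (2 ^ w) (2 * k) u
        (Nat.one_lt_two_pow (by omega)) u0 (u1.trans (nm i hi).1)))
    · obtain ⟨a, b⟩ := mem_filter.1 hi
      exact mem_filter.2 ⟨Nat.mem_divisors.2 ⟨b, u0.ne'⟩, (mem_filter.1 (mem_sigma.1 a).2).2.1⟩
    · refine (card_le_card_of_injOn (t := Ico (Nat.clog 2 b - 3) (Nat.clog 2 b)) (fun i => i.1)
        (fun i hi => ?_) fun i hi i' hi' e => ?_).trans (by rw [Nat.card_Ico]; omega)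
      · obtain ⟨a, rfl⟩ := mem_filter.1 (mem_coe.1 hi)
        obtain ⟨x, y⟩ := mem_Ioc.1 (mem_filter.1 (mem_sigma.1 (mem_filter.1 a).1).2).1
        exact mem_coe.2 (mem_Ico.2 ⟨Nat.sub_le_of_le_add (Nat.clog_le_of_le_pow y),
          (Nat.lt_clog_iff_pow_lt one_lt_two).2 x⟩)
      · exact Sigma.ext e (heq_of_eq ((mem_filter.1 (mem_coe.1 hi)).2.trans
          (mem_filter.1 (mem_coe.1 hi')).2.symm))
  rw [sum_sigma, g1] at c1
  have c2 := sum_le_sum m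
  rw [← mul_sum, ← mul_sum, sum_comm] at c2
  simp only [← mul_sum] at c2
  rw [Nat.cast_mul, Nat.cast_pow, pow_mul, Nat.cast_ofNat, Nat.cast_ofNat,
    show (2 : ℝ) ^ 2 = 4 by norm_num] at c1
  rw [he] at c2
  refine le_of_mul_le_mul_left (a := (N.totient : ℝ)) ?_ f0
  beta_reduce at c1 ⊢
  linarith

end Pool.Agent.G42
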