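import Pool.Agent.MP_b5e119_nt.G27Z.Main
import Pool.Agent.MP_b5e119_nt.G42A.ENDA
import Pool.Agent.MP_b5e119_nt.G42A.INVA
import Pool.Agent.MP_b5e119_nt.G42A.LRGA
import Pool.Agent.MP_b5e119_nt.G42A.NPR
import Pool.Agent.MP_b5e119_nt.G42A.REPA
import Pool.Agent.MP_b5e119_nt.G42A.RGA
import Pool.Agent.MP_b5e119_nt.G42A.SCAA
import Pool.Agent.MP_b5e119_nt.G42A.SCBA
import Pool.Agent.MP_b5e119_nt.G42A.SIZA
import Pool.Agent.MP_b5e119_nt.G42A.SPTA
import Pool.Agent.MP_b5e119_nt.G42A.STRA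
import Pool.Agent.MP_b5e119_nt.G42A.SVB
import Pool.Agent.MP_b5e119_nt.G42A.TOPB
import Pool.Agent.MP_b5e119_nt.G42A.TYPA
import Pool.Agent.MP_b5e119_nt.G42A.UNR
import Pool.Agent.MP_b5e119_nt.G42A.ZNDA

/-! Assembly of the end part for every modulus. -/

namespace Pool.Agent.G42

open Pool.Agent.G60

theorem unr : UNR_s := unr_row G27.uni_row G27.tau_row G27.phi

theorem enda : ENDA_s :=
  enda_row keyx (typa_row G27.parg_row (G27.locg_row G27.pv) G27.uni_row G27.tau_row G27.phi
    G94.rg_row cnu) G27.mug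

theorem repa : REPA_s :=
  repa_row (rga_row maj_row G94.rg_row unr) svb_row (svv_row svr_row dya_row) G27.burgg

theorem siza : SIZA_s := siza_row unr dya_row

theorem znda : ZNDA_s :=
  znda_row (spta_row dya_row maj_row (scaa_row dya_row maj_row pairx_row siza)
      (scba_row dya_row maj_row pairx_row siza) blr_row) lidx_row merx_row
    (rasx_row (raax_row hyp_row G27.burgg tail_row)) (hecx_row hyp_row lidx_row zb_row tlbx_row)
    lfnx_row (polx_row lfnx_row)

theorem topb_of (hF : ∀ i : Sg, @FEWA_s i) : TOPB_s :=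
  topb_row (fun i => inva_row odx (hF i) enda
      (npr_row (lio_row sq_row hyp_row lio1_row) G27.tau_row G27.phi) stra_row)
    repa (lrga_row G94.dyp_row G94.rg_row G27.tau_row G27.uni_row G27.phi) znda mon_row

end Pool.Agent.G42
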