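import Pool.Agent.MP_b5e119_nt.G1A.Climb
import Pool.Agent.MP_b5e119_nt.G42A.EMain

/-! Assembly of the form for every modulus. -/

namespace Pool.Agent.G42

theorem topb : TOPB_s := topb_of fun i => @G1A.fewa i

end Pool.Agent.G42
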