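import Pool.Agent.MP_b5e119_nt.G42A.EDefs
import Pool.Agent.MP_b5e119_nt.G27.STRG

namespace Pool.Agent.G42

open Finset Filter Topology Pool.Agent.G60

theorem stra_even [Sg] (N : ℕ) [NeZero N] (hN : 1 < N) (χ : Ch N) (h2 : χ ^ 2 = 1) (σ : ℤ)
    (hσ : σ = 1 ∨ σ = -1) (h1 : G27.re χ (N - 1) = -Sg.s) :
    σ * ∑ a : ZMod N, ff N a * G27.re χ a.val ≤ odU N := by
  classical
  have hm : ((N - 1 : ℕ) : ZMod N) = -1 := by
    rw [Nat.cast_sub (by omega)]; simp
  have hneg : ∀ a : ZMod N, G27.re χ (-a).val = -Sg.s * G27.re χ a.val := by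
    intro a
    rw [← h1, ← G27.re_mul h2]
    refine G27.re_congr χ ?_
    rw [Nat.cast_mul, hm, ZMod.natCast_zmod_val, ZMod.natCast_zmod_val]
    ring
  have e : ∑ a : ZMod N, ff N a * G27.re χ a.val =
      ∑ a : ZMod N, ff N (-a) * (-Sg.s * G27.re χ a.val) := by
    rw [← Equiv.sum_comp (Equiv.neg (ZMod N))]
    exact sum_congr rfl fun a _ => by rw [Equiv.neg_apply, hneg]
  have h : ∀ a : ZMod N,
      σ * (ff N a * G27.re χ a.val) + σ * (ff N (-a) * (-Sg.s * G27.re χ a.val)) ≤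
        2 * (if IsUnit a ∧ ff N (-a) ≠ Sg.s * ff N a then 1 else 0) := by
    intro a
    by_cases hu : IsUnit a
    · have h0 : a ≠ 0 := by
        have : Fact (1 < N) := ⟨hN⟩
        exact hu.ne_zero
      have hx : G27.re χ a.val = 1 ∨ G27.re χ a.val = -1 ∨ G27.re χ a.val = 0 := by
        have := abs_le.1 (G27.abs_re_le χ a.val)
        omega
      rcases G27.strg_ff N a h0 with h1 | h1 <;> rcases hx with h2 | h2 | h2 <;>
        rcases hσ with h3 | h3 <;> rcases G27.strg_ff N (-a) (neg_ne_zero.2 h0) with h4 | h4 <;>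
        rcases Sg.hs with h5 | h5 <;> simp [h1, h2, h3, h4, h5, hu]
    · have h0 : G27.re χ a.val = 0 := G27.re_nonunit χ fun hc => hu (by
        have := (ZMod.isUnit_iff_coprime a.val N).2 hc
        rwa [ZMod.natCast_zmod_val] at this)
      simp [h0, hu]
  have hs := sum_le_sum fun a (_ : a ∈ (univ : Finset (ZMod N))) => h a
  rw [sum_add_distrib, ← mul_sum, ← mul_sum, ← mul_sum, ← e, sum_boole] at hs
  unfold odU
  linarith

theorem stra_row [Sg] : STRA_s := by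
  intro N _ χ t hN1 h2 ht hc hod
  have hφ0 : 0 < N.totient := Nat.totient_pos.2 (by omega)
  rw [G27.strg_nu N χ h2] at hc
  set S : ℤ := ∑ a : ZMod N, ff N a * G27.re χ a.val with hS
  obtain ⟨σ, hσ, hσS⟩ : ∃ σ : ℤ, (σ = 1 ∨ σ = -1) ∧ 0 ≤ σ * S := by
    rcases le_total 0 S with h | h
    · exact ⟨1, Or.inl rfl, by linarith⟩
    · exact ⟨-1, Or.inr rfl, by linarith⟩
  have hsum := G27.strg_sum N hN1 χ h2 σ hσ
  rw [← hS] at hsum
  have hp1 : (0 : ℝ) < (N.totient : ℝ) := by exact_mod_cast hφ0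
  have hEx : 2 * (G27.EX χ σ : ℝ) ≤ t * N.totient := by
    set u : ℝ := ((σ * S : ℤ) : ℝ) / (N.totient : ℝ) with hu
    have ht2 : ((S : ℝ) / (N.totient : ℝ)) ^ 2 = u ^ 2 := by
      rw [hu]
      rcases hσ with h | h <;> rw [h] <;> push_cast <;> ring
    have ht0 : 0 ≤ u := div_nonneg (by exact_mod_cast hσS) hp1.le
    have hte : (2 * G27.EX χ σ : ℝ) = (N.totient : ℝ) * (1 - u) := by
      rw [hu, hsum]; push_cast; field_simp; ring
    have ht1 : 0 ≤ 1 - u := by
      have : 0 ≤ (N.totient : ℝ) * (1 - u) := by rw [← hte]; positivity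
      exact nonneg_of_mul_nonneg_right this hp1
    rw [ht2] at hc
    have a1 : 1 - u ≤ t := by nlinarith
    rw [hte, mul_comm]
    exact mul_le_mul_of_nonneg_right a1 hp1.le
  have hE0 : (0 : ℝ) ≤ G27.EX χ σ := Nat.cast_nonneg _
  refine ⟨σ, hσ, by linarith, ?_⟩
  by_contra hne
  have hcop : (N - 1).Coprime N := by
    obtain ⟨k, rfl⟩ : ∃ k, N = k + 1 := ⟨N - 1, by omega⟩
    simp
  have h : G27.re χ (N - 1) = -Sg.s := by
    rcases G27.re_unit h2 hcop with h | h <;>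
      rcases Sg.hs with h5 | h5 <;> rw [h, h5] at hne <;> rw [h, h5] <;> simp at hne ⊢
  have h6 := stra_even N hN1 χ h2 σ hσ h
  rw [← hS, hsum] at h6
  have h7 : (N.totient : ℝ) - 2 * G27.EX χ σ ≤ odU N := by exact_mod_cast h6
  have h8 : t * N.totient ≤ 1 / 8 * N.totient := mul_le_mul_of_nonneg_right ht hp1.le
  linarith

end Pool.Agent.G42
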