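import Pool.Agent.MP_b5e119_nt.G42A.EDefs

/-! Statements for the real zero when errors are relative to `φ(M)`. -/

namespace Pool.Agent.G42

open Finset Filter Topology Pool.Agent.G60
open Pool.Agent.G27 (re EX)

noncomputable section

def ev (G : ℕ → ℤ) (N k : ℕ) : ℝ := eu G N k * N / N.totient

def SIZA_s : Prop := ∃ N₀ : ℕ, ∀ N : ℕ, N₀ ≤ N →
  (∀ k, k ≤ 175 * aa N → (YY N k : ℝ) * N.totient / (2 * N) ≤ #(UY N k)) ∧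
    ∀ j, aa N ≤ j + 1 → #(PB j) ≤ 2 * #(PN N j)

def SCAA_s : Prop := ∃ (C : ℝ) (N₀ : ℕ), 0 < C ∧
  ∀ (G : ℕ → ℤ) (N : ℕ) (σ : ℤ) (δ : ℝ), N₀ ≤ N → CU G N → (σ = 1 ∨ σ = -1) →
    (#{u ∈ UY N 0 | G u ≠ σ} : ℝ) ≤ δ * N.totient →
      ∑ k ∈ Ico (aa N) (87 * aa N), ev G N k ≤ C * δ * aa N ∧
        ∑ j ∈ Ico (aa N) (87 * aa N), du G N j ≤ C * δ * aa N

def SCBA_s : Prop := ∃ (C : ℝ) (N₀ : ℕ), 0 < C ∧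
  ∀ (G : ℕ → ℤ) (N k : ℕ), N₀ ≤ N → CU G N → k < 87 * aa N →
    (TU G N (k + 1) ≠ TU G N k → 1 ≤ C * ev G N k) ∧
      (#{j ∈ Ico (aa N) (87 * aa N) | TU G N (k + j + 1) ≠ TU G N k * tu G N j} : ℝ) ≤
        C * ev G N k * aa N

def SPTA_s : Prop := ∀ ε' : ℝ, 0 < ε' → ∃ δ : ℝ, 0 < δ ∧ ∃ N₀ : ℕ,
  ∀ (G : ℕ → ℤ) (N : ℕ) (σ : ℤ), N₀ ≤ N → CU G N → (σ = 1 ∨ σ = -1) →
    (#{u ∈ UY N 0 | G u ≠ σ} : ℝ) ≤ δ * N.totient →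
      ∑ q ∈ Ico (2 ^ aa N) (2 ^ (85 * aa N)) with (q.Prime ∧ ¬q ∣ N ∧ G q ≠ 1),
        Real.log q / q ≤ ε' * aa N

def ZNDA_s : Prop := ∀ η : ℝ, 0 < η → ∃ δ : ℝ, 0 < δ ∧ ∃ N₀ : ℕ, ∀ (N : ℕ) [NeZero N],
  N₀ ≤ N → ∀ (χ : Ch N) (s : ℤ), χ ^ 2 = 1 → χ ≠ 1 → (s = 1 ∨ s = -1) →
    (EX χ s : ℝ) ≤ δ * N.totient →
      ∃ σ : ℝ, 1 - η / Real.log N ≤ σ ∧ σ < 1 ∧ DirichletCharacter.LFunction χ σ = 0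

def TOPB_s : Prop := ∀ η : ℝ, 0 < η → ∃ c : ℝ, 0 < c ∧ ∀ A : ℕ, ∃ X₀ : ℕ, ∀ X : ℕ, X₀ ≤ X →
  ∃ (q : ℕ) (_ : NeZero q) (ψ : DirichletCharacter ℂ q), ψ.IsPrimitive ∧ ψ ^ 2 = 1 ∧
    ∀ M N : ℕ, X ≤ M → M ≤ X ^ 2 → 0 < N → M ∣ N →
      ∀ e e' : ℤ, (e = 1 ∨ e = -1) → (e' = 1 ∨ e' = -1) → (cnt N e e' : ℝ) < c * M →
        Real.log X ^ A ≤ q ∧ q ∣ M ∧ ψ (-1) = -(e * e' : ℤ) ∧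
          ∃ σ : ℝ, 1 - η / Real.log X ≤ σ ∧ σ < 1 ∧ DirichletCharacter.LFunction ψ σ = 0

end

end Pool.Agent.G42
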